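import Pool.Agent.K4H34.ST.Spec

/-!
# Stark's conjecture and Hilbert class fields: a common Galois extension

(Formalised by helper99.)
-/

set_option autoImplicit false

namespace Pool.Agent.K4H34.ST

open NumberField NumberField.ComplexEmbedding Polynomial Pool.Agent.K4H77.SL

theorem c : StC := by
  intro L N₁ _ _ _ _ _ _ s
  classical
  obtain ⟨x, hx⟩ := Field.exists_primitive_element ℚ L
  obtain ⟨n, hn, hy⟩ : ∃ n : ℤ, n ≠ 0 ∧ IsIntegral ℤ (n • x) := by
    have h1 : IsAlgebraic ℤ x :=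
      (IsFractionRing.isAlgebraic_iff ℤ ℚ L).2 (Algebra.IsAlgebraic.isAlgebraic (R := ℚ) x)
    exact h1.exists_integral_multiple
  have hadj : IntermediateField.adjoin ℚ {n • x} = ⊤ := by
    rw [eq_top_iff, ← hx, IntermediateField.adjoin_simple_le_iff]
    have h1 : n • x ∈ IntermediateField.adjoin ℚ {n • x} :=
      IntermediateField.mem_adjoin_simple_self ℚ _
    have h2 : (n : ℚ)⁻¹ • (n • x) = x := by
      rw [← Int.cast_smul_eq_zsmul ℚ n x, smul_smul, inv_mul_cancel₀ (Int.cast_ne_zero.2 hn),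
        one_smul]
    have h3 := IntermediateField.smul_mem _ h1 (x := (n : ℚ)⁻¹)
    rwa [h2] at h3
  let f1 : (𝓞 N₁)[X] := (minpoly ℤ (n • x)).map (algebraMap ℤ (𝓞 N₁))
  let f2 : (𝓞 N₁)[X] := X ^ 2 - X + C (s : 𝓞 N₁)
  have hf2 : f2.Monic := by
    have h1 : f2 = X ^ 2 + (C (s : 𝓞 N₁) - X) := by
      change X ^ 2 - X + C (s : 𝓞 N₁) = _
      ring
    rw [h1]
    apply monic_X_pow_add
    refine lt_of_le_of_lt (degree_sub_le _ _) ?_
    rw [degree_X]
    refine max_lt (lt_of_le_of_lt degree_C_le (by norm_num)) (by norm_num)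
  have hf2d : f2.natDegree = 2 := by
    have h1 : f2 = X ^ 2 + (C (s : 𝓞 N₁) - X) := by
      change X ^ 2 - X + C (s : 𝓞 N₁) = _
      ring
    have h2 : (C (s : 𝓞 N₁) - X : (𝓞 N₁)[X]).degree < 2 := by
      refine lt_of_le_of_lt (degree_sub_le _ _) ?_
      rw [degree_X]
      refine max_lt (lt_of_le_of_lt degree_C_le (by norm_num)) (by norm_num)
    rw [h1]
    exact natDegree_eq_of_degree_eq_some (by
      rw [degree_add_eq_left_of_degree_lt (by rw [degree_X_pow]; exact h2), degree_X_pow])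
  obtain ⟨M, iF, iN, iQ, iA, iT, iG, hM⟩ := exists_ext_poly ℚ N₁ {f1, f2} (Set.toFinite _) (by
    rintro f (rfl | rfl)
    · exact (minpoly.monic hy).map _
    · exact hf2)
  have hQ : iQ = DivisionRing.toRatAlgebra := Subsingleton.elim _ _
  subst hQ
  -- the embedding of `L`
  have hspl : (((minpoly ℚ (n • x)).map (algebraMap ℚ M))).Splits := by
    obtain ⟨t, ht⟩ := hM f1 (Or.inl rfl)
    have h1 : (minpoly ℚ (n • x)).map (algebraMap ℚ M) =
        (f1.map (algebraMap (𝓞 N₁) (𝓞 M))).map (algebraMap (𝓞 M) M) := by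
      rw [minpoly.isIntegrallyClosed_eq_field_fractions' ℚ hy, Polynomial.map_map,
        Polynomial.map_map, Polynomial.map_map]
      congr 1
      exact Subsingleton.elim _ _
    rw [h1, ht, Polynomial.map_multiset_prod, Multiset.map_map]
    refine Splits.multisetProd fun p hp => ?_
    obtain ⟨a, -, rfl⟩ := Multiset.mem_map.1 hp
    simp only [Function.comp, Polynomial.map_sub, Polynomial.map_X, Polynomial.map_C]
    exact Splits.X_sub_C _
  obtain ⟨g⟩ : Nonempty (L →ₐ[ℚ] M) := by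
    refine IntermediateField.nonempty_algHom_of_adjoin_splits (S := {n • x}) (fun y hy' => ?_) hadj
    rw [Set.mem_singleton_iff] at hy'
    subst hy'
    exact ⟨Algebra.IsIntegral.isIntegral _, hspl⟩
  refine ⟨M, iF, iN, (g : L →+* M).toAlgebra, iA, iG, ?_⟩
  obtain ⟨t, ht⟩ := hM f2 (Or.inr rfl)
  have hcard : t.card = 2 := by
    have h1 := congrArg natDegree ht
    rw [hf2.natDegree_map, hf2d, natDegree_multiset_prod_X_sub_C_eq_card] at h1
    exact h1.symm
  obtain ⟨a, ha⟩ := Multiset.card_pos_iff_exists_mem.1 (by omega : 0 < t.card)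
  refine ⟨a, ?_⟩
  have h2 : (f2.map (algebraMap (𝓞 N₁) (𝓞 M))).eval a = 0 := by
    rw [ht, eval_multiset_prod, Multiset.map_map]
    apply Multiset.prod_eq_zero
    rw [Multiset.mem_map]
    exact ⟨a, ha, by simp⟩
  have h3 : (f2.map (algebraMap (𝓞 N₁) (𝓞 M))).eval a = a * a - a + (s : 𝓞 M) := by
    simp [f2, sq]
  rw [← h3, h2]

end Pool.Agent.K4H34.ST
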