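import Pool.Agent.K4H34.ST.Spec

/-!
# Functions supported on the generators of a cyclic subgroup; inflation of induced functions
-/

set_option autoImplicit false

namespace Pool.Agent.K4H34.ST

open Pool.Agent.R389 Pool.Agent.K4H77.SL

theorem g2 : StG2 := by
  intro G _ _ g S F ζ hF hS
  classical
  let U : Subgroup G := Subgroup.zpowers g
  change ind U (gen g F) ∈ sat S
  have hcomm : ∀ a b : U, a * b = b * a := by
    rintro ⟨a, i, rfl⟩ ⟨b, j, rfl⟩
    apply Subtype.ext
    change g ^ i * g ^ j = g ^ j * g ^ i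
    rw [← zpow_add, ← zpow_add, add_comm]
  have hc : IsMulCommutative U := ⟨⟨hcomm⟩⟩
  let χ : U → ℤ := fun x => if Subgroup.zpowers (x : G) = U then 1 else 0
  have h1 := cyc_span (MonoidHom.id U) Function.surjective_id χ (by
    intro x y hxy
    have h2 := congrArg (Subgroup.map U.subtype) hxy
    rw [MonoidHom.map_zpowers, MonoidHom.map_zpowers] at h2
    change (if Subgroup.zpowers (x : G) = U then (1 : ℤ) else 0)
      = if Subgroup.zpowers (y : G) = U then 1 else 0
    have h3 : Subgroup.zpowers (x : G) = Subgroup.zpowers (y : G) := h2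
    rw [h3])
  let m : (U → ℂ) →+ (G → ℂ) := AddMonoidHom.mk' (fun f => ind U (fun u => f u * ζ u)) (by
    intro a b
    rw [← ind_add]
    congr 1
    funext u
    simp only [Pi.add_apply]
    ring)
  have h2 : AddSubgroup.closure {f : U → ℂ | ∃ V : Subgroup U, f = ind V (fun _ => 1)}
      ≤ S.comap m := by
    rw [AddSubgroup.closure_le]
    rintro _ ⟨V, rfl⟩
    rw [SetLike.mem_coe, AddSubgroup.mem_comap]
    change ind U (fun u => ind V (fun _ => (1 : ℂ)) u * ζ u) ∈ S
    have h3 : (fun u => ind V (fun _ => (1 : ℂ)) u * ζ u) = ind V (fun v => ζ v) := by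
      funext u
      rw [← ind_mul V (fun _ => (1 : ℂ)) (F := ζ) (by
        intro a b
        rw [hcomm b a, mul_assoc, mul_inv_cancel, mul_one]) u]
      simp only [one_mul]
    rw [h3, ind_ind]
    have hle : V.map U.subtype ≤ U := by
      rintro _ ⟨x, -, rfl⟩
      exact x.2
    have h4 : tr U V (fun v => ζ v) = fun v : V.map U.subtype => ζ ⟨(v : G), hle v.2⟩ := by
      funext v
      obtain ⟨w, rfl⟩ := (V.equivMapOfInjective U.subtype U.subtype_injective).surjective v
      rw [tr, MulEquiv.symm_apply_apply]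
      rfl
    rw [h4]
    exact hS _ hle
  have h5 := h2 h1
  rw [AddSubgroup.mem_comap, map_nsmul] at h5
  refine ⟨Nat.card U, Nat.card_pos, ?_⟩
  have h6 : m (fun u => ((χ ((MonoidHom.id U) u) : ℤ) : ℂ)) = ind U (gen g F) := by
    change ind U (fun u => ((χ u : ℤ) : ℂ) * ζ u) = ind U (gen g F)
    congr 1
    funext u
    change (((if Subgroup.zpowers (u : G) = U then (1 : ℤ) else 0 : ℤ)) : ℂ) * ζ u
      = if Subgroup.zpowers (u : G) = Subgroup.zpowers g then F u else 0
    by_cases h : Subgroup.zpowers (u : G) = Subgroup.zpowers g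
    · rw [if_pos h, if_pos h, Int.cast_one, one_mul]
      exact (hF u h).symm
    · rw [if_neg h, if_neg h, Int.cast_zero, zero_mul]
  rwa [h6] at h5

theorem g3 : StG3 := by
  intro G H _ _ _ _ π hπ V f
  classical
  have _ : Fintype G := Fintype.ofFinite G
  have _ : Fintype H := Fintype.ofFinite H
  funext g
  have hext : ∀ z : G, ext (V.comap π) (fun u => f ⟨π (u : G), u.2⟩) z = ext V f (π z) := by
    intro z
    by_cases h : π z ∈ V
    · rw [ext_mem _ _ (show z ∈ V.comap π from h), ext_mem _ _ h]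
    · rw [ext_not _ _ (show z ∉ V.comap π from h), ext_not _ _ h]
  rw [ind_eq, ind_eq]
  have h1 : ∀ x : G, ext (V.comap π) (fun u => f ⟨π (u : G), u.2⟩) (x⁻¹ * g * x)
      = (fun y : H => ext V f (y⁻¹ * π g * y)) (π x) := by
    intro x
    rw [hext]
    simp only [map_mul, map_inv]
  rw [Finset.sum_congr rfl (fun x _ => h1 x)]
  have h2 : ∀ y : H, (Finset.univ.filter (fun x : G => π x = y)).card = Nat.card π.ker := by
    intro y
    obtain ⟨z, rfl⟩ := hπ y
    rw [← Fintype.card_subtype, ← Nat.card_eq_fintype_card]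
    refine Nat.card_congr ⟨fun x => ⟨z⁻¹ * x, ?_⟩, fun s => ⟨z * s, ?_⟩, ?_, ?_⟩
    · rw [MonoidHom.mem_ker, map_mul, map_inv, x.2, inv_mul_cancel]
    · rw [map_mul, MonoidHom.mem_ker.mp s.2, mul_one]
    · intro x; apply Subtype.ext; simp
    · intro s; apply Subtype.ext; simp
  rw [← Finset.sum_fiberwise_of_maps_to (s := (Finset.univ : Finset G))
    (t := (Finset.univ : Finset H)) (g := fun x => π x) (fun _ _ => Finset.mem_univ _)]
  have h3 : ∀ y : H, ∑ x ∈ Finset.univ.filter (fun x : G => π x = y),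
      (fun y : H => ext V f (y⁻¹ * π g * y)) (π x)
      = (Nat.card π.ker : ℂ) * ext V f (y⁻¹ * π g * y) := by
    intro y
    rw [Finset.sum_congr rfl (g := fun _ => ext V f (y⁻¹ * π g * y)) (fun x hx => by
      rw [(Finset.mem_filter.mp hx).2]), Finset.sum_const, h2, nsmul_eq_mul]
  rw [Finset.sum_congr rfl (fun y _ => h3 y), ← Finset.mul_sum]
  have h4 : Nat.card (V.comap π) * V.index = Nat.card G := by
    rw [← Subgroup.index_comap_of_surjective V hπ]
    exact Subgroup.card_mul_index _
  have h5 : Nat.card V * V.index = Nat.card H := Subgroup.card_mul_index _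
  have h6 : Nat.card π.ker * Nat.card H = Nat.card G := by
    have h7 := Subgroup.card_mul_index π.ker
    rw [Subgroup.index_ker, MonoidHom.range_eq_top.mpr hπ] at h7
    rwa [Nat.card_congr (Subgroup.topEquiv (G := H)).toEquiv] at h7
  have h8 : Nat.card (V.comap π) = Nat.card π.ker * Nat.card V := by
    have h9 : 0 < V.index := Nat.pos_of_ne_zero Subgroup.index_ne_zero_of_finite
    apply Nat.eq_of_mul_eq_mul_right h9
    rw [h4, mul_assoc, h5, h6]
  have h10 : (Nat.card V : ℂ) ≠ 0 := by exact_mod_cast Nat.card_pos.ne'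
  have h11 : (Nat.card π.ker : ℂ) ≠ 0 := by exact_mod_cast Nat.card_pos.ne'
  rw [h8]
  push_cast
  field_simp

end Pool.Agent.K4H34.ST
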