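import Pool.Agent.K4H34.ST.Spec

/-!
# Artin: a class function is determined by its parts on the generators of the cyclic subgroups
-/

set_option autoImplicit false

namespace Pool.Agent.K4H34.ST

open Pool.Agent.R389

lemma ext_gen {G : Type} [Group G] (r : G) (f : G → ℂ) (y : G) [Decidable
    (Subgroup.zpowers y = Subgroup.zpowers r)] :
    ext (Subgroup.zpowers r) (gen r f) y =
      if Subgroup.zpowers y = Subgroup.zpowers r then f y else 0 := by
  classical
  by_cases h : Subgroup.zpowers y = Subgroup.zpowers r
  · have hy : y ∈ Subgroup.zpowers r := by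
      rw [← h]
      exact Subgroup.mem_zpowers y
    rw [if_pos h]
    unfold ext
    rw [dif_pos hy]
    unfold gen
    rw [if_pos h]
  · rw [if_neg h]
    unfold ext
    by_cases hy : y ∈ Subgroup.zpowers r
    · rw [dif_pos hy]
      unfold gen
      rw [if_neg h]
    · rw [dif_neg hy]

theorem g1 : StG1 := by
  intro G _ _ f hf S hS
  classical
  have _ : Fintype G := Fintype.ofFinite G
  let c : Subgroup G → G := fun C => if h : ∃ g, Subgroup.zpowers g = C then h.choose else 1
  have hc : ∀ g : G, Subgroup.zpowers (c (Subgroup.zpowers g)) = Subgroup.zpowers g := by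
    intro g
    have h : ∃ g', Subgroup.zpowers g' = Subgroup.zpowers g := ⟨g, rfl⟩
    simp only [c, dif_pos h]
    exact h.choose_spec
  let R : Finset G := Finset.univ.image fun g => c (Subgroup.zpowers g)
  have hR : ∀ y : G, ∀ v : ℂ, ∑ r ∈ R, (if Subgroup.zpowers y = Subgroup.zpowers r then v else 0)
      = v := by
    intro y v
    have hmem : c (Subgroup.zpowers y) ∈ R := Finset.mem_image.2 ⟨y, Finset.mem_univ y, rfl⟩
    refine (Finset.sum_eq_single_of_mem _ hmem fun r hr hne => ?_).trans (if_pos (hc y).symm)
    refine if_neg fun h => hne ?_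
    obtain ⟨g, -, rfl⟩ := Finset.mem_image.1 hr
    rw [hc] at h
    rw [h]
  have key : (Nat.card G) • f = ∑ r ∈ R, (Nat.card (Subgroup.zpowers r)) •
      ind (Subgroup.zpowers r) (gen r f) := by
    funext h
    rw [Pi.smul_apply, Finset.sum_apply]
    have h1 : ∀ r ∈ R, ((Nat.card (Subgroup.zpowers r)) • ind (Subgroup.zpowers r) (gen r f)) h
        = ∑ x : G, if Subgroup.zpowers (x⁻¹ * h * x) = Subgroup.zpowers r then f h else 0 := by
      intro r _
      rw [Pi.smul_apply, ind_eq, nsmul_eq_mul, ← mul_assoc, mul_inv_cancel₀, one_mul]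
      · refine Finset.sum_congr rfl fun x _ => ?_
        rw [ext_gen]
        have h2 : f (x⁻¹ * h * x) = f h := by
          have := hf h x⁻¹
          rwa [inv_inv] at this
        rw [h2]
      · exact_mod_cast Nat.card_pos.ne'
    rw [Finset.sum_congr rfl h1, Finset.sum_comm]
    rw [Finset.sum_congr rfl fun x _ => hR (x⁻¹ * h * x) (f h), Finset.sum_const,
      Finset.card_univ, Nat.card_eq_fintype_card]
  refine sat_of_smul (n := Nat.card G) Nat.card_pos ?_
  rw [key]
  exact sum_mem fun r _ => nsmul_mem (hS r) _

end Pool.Agent.K4H34.ST
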