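import Mathlib
import Pool.Agent.K4H77.SL.Main2

/-!
# Stark's conjecture and Hilbert class fields: the pieces

Everything is over the base field `ℚ`.
-/

set_option autoImplicit false

namespace Pool.Agent.K4H34.ST

open NumberField NumberField.ComplexEmbedding Polynomial Pool.Agent.R389 Pool.Agent.K4H74.ST
  Pool.Agent.K4H77.SL
open scoped Pointwise

/-- the elements some positive multiple of which lies in `S` -/
def sat {V : Type} [AddCommGroup V] (S : AddSubgroup V) : AddSubgroup V where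
  carrier := {f | ∃ n : ℕ, 0 < n ∧ n • f ∈ S}
  zero_mem' := ⟨1, one_pos, by simp⟩
  add_mem' := by
    rintro a b ⟨n, hn, h⟩ ⟨k, hk, h'⟩
    refine ⟨n * k, Nat.mul_pos hn hk, ?_⟩
    rw [smul_add]
    refine add_mem ?_ ?_
    · rw [mul_comm, mul_smul]
      exact nsmul_mem h k
    · rw [mul_smul]
      exact nsmul_mem h' n
  neg_mem' := by
    rintro a ⟨n, hn, h⟩
    refine ⟨n, hn, ?_⟩
    rw [smul_neg]
    exact neg_mem h

lemma mem_sat {V : Type} [AddCommGroup V] {S : AddSubgroup V} {f : V} :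
    f ∈ sat S ↔ ∃ n : ℕ, 0 < n ∧ n • f ∈ S := Iff.rfl

lemma le_sat {V : Type} [AddCommGroup V] (S : AddSubgroup V) : S ≤ sat S :=
  fun f h => ⟨1, one_pos, by simpa using h⟩

lemma sat_of_smul {V : Type} [AddCommGroup V] {S : AddSubgroup V} {f : V} {n : ℕ} (hn : 0 < n)
    (h : n • f ∈ sat S) : f ∈ sat S := by
  obtain ⟨k, hk, h'⟩ := h
  exact ⟨k * n, Nat.mul_pos hk hn, by rwa [mul_smul]⟩

open Classical in
/-- the function `F` on the generators of the cyclic group generated by `g`, zero elsewhere -/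
noncomputable def gen {G : Type} [Group G] (g : G) (F : G → ℂ) : Subgroup.zpowers g → ℂ :=
  fun x => if Subgroup.zpowers (x : G) = Subgroup.zpowers g then F x else 0

/-! ### Group theory -/

/-- **G1** (Artin): a class function is known when its parts on the generators of the cyclic
subgroups are known. Proof: `|G| f = ∑_C |C| ind_C (gen)`, sum over the cyclic subgroups. -/
def StG1 : Prop :=
  ∀ (G : Type) [Group G] [Finite G] (f : G → ℂ), (∀ g x : G, f (x * g * x⁻¹) = f g) →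
    ∀ S : AddSubgroup (G → ℂ), (∀ g : G, ind (Subgroup.zpowers g) (gen g f) ∈ sat S) → f ∈ sat S

/-- **G2**: the indicator function of the generators is a combination of the
`ind V 1`, `V ≤ ⟨g⟩` (`cyc_span`), multiply by `ζ`, `ind_ind`. -/
def StG2 : Prop :=
  ∀ (G : Type) [Group G] [Finite G] (g : G) (S : AddSubgroup (G → ℂ)) (F : G → ℂ)
    (ζ : Subgroup.zpowers g → ℂ),
    (∀ x : Subgroup.zpowers g, Subgroup.zpowers (x : G) = Subgroup.zpowers g → F x = ζ x) →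
    (∀ (V : Subgroup G) (hV : V ≤ Subgroup.zpowers g),
      ind V (fun v => ζ ⟨(v : G), hV v.2⟩) ∈ S) →
    ind (Subgroup.zpowers g) (gen g F) ∈ sat S

/-- **G3**: inflation of induced functions. -/
def StG3 : Prop :=
  ∀ (G H : Type) [Group G] [Finite G] [Group H] [Finite H] (π : G →* H),
    Function.Surjective π → ∀ (V : Subgroup H) (f : V → ℂ),
      (fun g => ind V f (π g)) = ind (V.comap π) (fun u => f ⟨π (u : G), u.2⟩)

/-! ### Real polynomials and totally real fields -/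

/-- **R0**: sign changes between the points `2 T i`; `Π (X - 2Ti)` dominates `P - X ^ n`. -/
def StR0 : Prop :=
  ∀ P : ℝ[X], P.Monic → ∃ T₀ : ℕ, ∀ T : ℕ, T₀ ≤ T → ∀ z : ℂ,
    ((P + ∏ i ∈ Finset.range P.natDegree, (X - C ((2 * T * i : ℕ) : ℝ))
      - X ^ P.natDegree).map (algebraMap ℝ ℂ)).eval z = 0 → z.im = 0

/-- **R1**: splitting fields of polynomials with real roots. Proof: take `N'` from
`exists_ext_poly ℚ L A` and the fixed field of the subgroup generated by `CC ℚ N'`. -/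
def StR1 : Prop :=
  ∀ (L : Type) [Field L] [NumberField L] [IsGalois ℚ L], IsTotallyReal L →
    ∀ A : Set (𝓞 L)[X], A.Finite → (∀ f ∈ A, f.Monic) →
    (∀ f ∈ A, ∀ (φ : L →+* ℂ) (z : ℂ),
      (f.map (φ.comp (algebraMap (𝓞 L) L))).eval z = 0 → z.im = 0) →
    ∃ (N : Type) (_ : Field N) (_ : NumberField N) (_ : Algebra L N), IsGalois ℚ N ∧
      IsTotallyReal N ∧ ∀ f ∈ A, ∃ s : Multiset (𝓞 N),
        f.map (algebraMap (𝓞 L) (𝓞 N)) = (s.map (fun a => X - C a)).prod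

/-- **R2**: the totally real extension of Schmidt (`exists_schmidt` with totally real fields). -/
def StR2 : Prop :=
  ∀ (L : Type) [Field L] [NumberField L] [IsGalois ℚ L], IsTotallyReal L → ∀ t : ℕ, t ≠ 0 →
    ∃ (N : Type) (_ : Field N) (_ : NumberField N) (_ : Algebra L N) (_ : IsGalois ℚ N),
      IsTotallyReal N ∧
      ∀ (σ : N ≃ₐ[ℚ] N) (Q Q' : Ideal (𝓞 N)), Q.IsMaximal → Q'.IsMaximal → (t : 𝓞 N) ∈ Q →
        (t : 𝓞 N) ∈ Q' → σ ∈ decomp ℚ Q → σ ∈ decomp ℚ Q' →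
        AlgEquiv.restrictNormalHom L σ ≠ 1 →
        Q.comap (algebraMap (𝓞 L) (𝓞 N)) = Q'.comap (algebraMap (𝓞 L) (𝓞 N))

/-- **A**: a totally real field with the same completions at the primes dividing `s`. -/
def StA : Prop :=
  ∀ (L : Type) [Field L] [NumberField L] [IsGalois ℚ L] (s : ℕ), s ≠ 0 →
    ∃ (L₀ : Type) (_ : Field L₀) (_ : NumberField L₀), IsGalois ℚ L₀ ∧ IsTotallyReal L₀ ∧
      ∀ (M : Type) [Field M] [NumberField M] [Algebra L M] [Algebra L₀ M]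
        (σ : M ≃ₐ[ℚ] M) (Q : Ideal (𝓞 M)), Q.IsMaximal → (s : 𝓞 M) ∈ Q → σ ∈ decomp ℚ Q →
        (∀ x : L₀, σ (algebraMap L₀ M x) = algebraMap L₀ M x) →
        ∀ x : L, σ (algebraMap L M x) = algebraMap L M x

/-! ### The quadratic character and the compositum -/

/-- **Q**: the quadratic character of `ℚ(√(1 - 4s))`. -/
def StQ : Prop :=
  ∀ (s : ℕ), s ≠ 0 → ∀ (M : Type) [Field M] [NumberField M] (η : 𝓞 M),
    η * η - η + (s : 𝓞 M) = 0 →
    ∃ ε : (M ≃ₐ[ℚ] M) →* ℂˣ, (∀ σ, ε σ = 1 ∨ ε σ = -1) ∧ (∀ σ, ε σ = 1 ↔ gi σ η = η) ∧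
      (∀ (φ : M →+* ℂ) (c : M ≃ₐ[ℚ] M), IsConj φ c → ε c = -1) ∧
      (∀ (σ : M ≃ₐ[ℚ] M) (Q : Ideal (𝓞 M)), Q.IsMaximal → (s : 𝓞 M) ∈ Q → σ ∈ decomp ℚ Q →
        ε σ = 1) ∧
      ∀ (σ : M ≃ₐ[ℚ] M) (Q : Ideal (𝓞 M)), Q.IsMaximal → ((4 * s - 1 : ℕ) : 𝓞 M) ∉ Q →
        gi σ η - η ∈ Q → ε σ = 1

/-- **C**: a common Galois extension. -/
def StC : Prop :=
  ∀ (L N₁ : Type) [Field L] [NumberField L] [IsGalois ℚ L] [Field N₁] [NumberField N₁]
    [IsGalois ℚ N₁] (s : ℕ),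
    ∃ (M : Type) (_ : Field M) (_ : NumberField M) (_ : Algebra L M) (_ : Algebra N₁ M),
      IsGalois ℚ M ∧ ∃ η : 𝓞 M, η * η - η + (s : 𝓞 M) = 0

/-! ### Unramified split extensions inside `N` -/

/-- **S** (generalises `ind_split` of `K4H77.SL.Asm`): `F` the fixed field of `U`, `E` the fixed
field of `W`; the conditions say that `E / F` is unramified and split at the primes above `m`. -/
def StS : Prop :=
  ∀ (Mg : Type) [CommGroup Mg] (A : ArtinInvariant Mg) (m : ℕ), TrivSplit A m →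
    ∀ (N : Type) [Field N] [NumberField N] [IsGalois ℚ N] (U : Subgroup (N ≃ₐ[ℚ] N)),
    IsCyclic U → IsTotallyComplex (IntermediateField.fixedField U) →
    ∀ (Γ : Type) [Group Γ] [Finite Γ] (κ : U →* Γ) (ζ : Γ → ℂ), IsChar ζ →
    ∀ W : Subgroup (N ≃ₐ[ℚ] N), W ≤ U → (∀ u : U, (u : N ≃ₐ[ℚ] N) ∈ W → κ u = 1) →
    (∀ u ∈ U, ∀ Q : Ideal (𝓞 N), Q.IsMaximal → u ∈ decomp ℚ Q → (m : 𝓞 N) ∈ Q → u ∈ W) →
    (∀ u ∈ U, ∀ Q : Ideal (𝓞 N), Q.IsMaximal → u ∈ decomp ℚ Q →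
      (∀ x : 𝓞 N, (∀ w ∈ W, gi w x = x) → gi u x - x ∈ Q) → u ∈ W) →
    ind U (fun u => ζ (κ u)) ∈ TT A (K := ℚ) (L := N) ⊥

end Pool.Agent.K4H34.ST
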