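import Mathlib
import Pool.Agent.K4H34.ST.Spec

/-!
# The local values of a character, on the decomposition elements of a totally real field
-/

set_option autoImplicit false
set_option linter.unusedSectionVars false

namespace Pool.Agent.K4H34.ST

open NumberField NumberField.ComplexEmbedding Polynomial Pool.Agent.R389 Pool.Agent.K4H74.ST
  Pool.Agent.K4H77.SL
open scoped Pointwise

/-- restriction over `ℚ` -/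
noncomputable abbrev rq (E M : Type) [Field E] [NumberField E] [Field M] [NumberField M]
    [IsGalois ℚ E] [Algebra E M] : (M ≃ₐ[ℚ] M) →* (E ≃ₐ[ℚ] E) :=
  AlgEquiv.restrictNormalHom E

section one

variable {E M : Type} [Field E] [NumberField E] [Field M] [NumberField M] [IsGalois ℚ E]
  [Algebra E M]

lemma rq_apply (σ : M ≃ₐ[ℚ] M) (x : E) : algebraMap E M (rq E M σ x) = σ (algebraMap E M x) :=
  AlgEquiv.restrictNormal_commutes σ E x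

lemma rq_gi (σ : M ≃ₐ[ℚ] M) (x : 𝓞 E) :
    algebraMap (𝓞 E) (𝓞 M) (gi (rq E M σ) x) = gi σ (algebraMap (𝓞 E) (𝓞 M) x) := by
  apply RingOfIntegers.ext
  exact rq_apply σ (x : E)

lemma rq_eq_one {σ : M ≃ₐ[ℚ] M} : rq E M σ = 1 ↔ ∀ x : E, σ (algebraMap E M x)
    = algebraMap E M x := by
  constructor
  · intro h x
    rw [← rq_apply, h]
    rfl
  · intro h
    ext x
    apply (algebraMap E M).injective
    rw [rq_apply, h]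
    rfl

/-- decomposition groups restrict -/
lemma decomp_res {σ : M ≃ₐ[ℚ] M} {Q : Ideal (𝓞 M)} (h : σ ∈ decomp ℚ Q) :
    rq E M σ ∈ decomp ℚ (Q.comap (algebraMap (𝓞 E) (𝓞 M))) := by
  intro x
  rw [Ideal.mem_comap, Ideal.mem_comap, rq_gi]
  exact h _

lemma nat_mem_comap {Q : Ideal (𝓞 M)} (r : ℕ) :
    (r : 𝓞 E) ∈ Q.comap (algebraMap (𝓞 E) (𝓞 M)) ↔ (r : 𝓞 M) ∈ Q := by
  rw [Ideal.mem_comap, map_natCast]

lemma comap_max {Q : Ideal (𝓞 M)} (hQ : Q.IsMaximal) :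
    (Q.comap (algebraMap (𝓞 E) (𝓞 M))).IsMaximal :=
  Ideal.isMaximal_comap_of_isIntegral_of_isMaximal Q

/-- conjugates of decomposition elements -/
lemma decomp_conj {σ y : M ≃ₐ[ℚ] M} {Q : Ideal (𝓞 M)} (h : σ ∈ decomp ℚ Q) :
    y * σ * y⁻¹ ∈ decomp ℚ (y • Q) := by
  intro x
  have e1 : gi (y * σ * y⁻¹) x = y • gi σ (y⁻¹ • x) := by
    apply RingOfIntegers.ext
    rfl
  rw [e1, Ideal.smul_mem_pointwise_smul_iff, h, Ideal.mem_pointwise_smul_iff_inv_smul_mem]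

lemma smul_max {y : M ≃ₐ[ℚ] M} {Q : Ideal (𝓞 M)} (hQ : Q.IsMaximal) : (y • Q).IsMaximal := by
  have h5 : y • Q = Q.comap (gi y⁻¹) := by
    ext x
    rw [Ideal.mem_pointwise_smul_iff_inv_smul_mem, Ideal.mem_comap]
    rfl
  rw [h5]
  apply Ideal.comap_isMaximal_of_surjective
  intro x
  refine ⟨gi y x, ?_⟩
  rw [← gi_mul, inv_mul_cancel, gi_one]

lemma nat_mem_smul {y : M ≃ₐ[ℚ] M} {Q : Ideal (𝓞 M)} {r : ℕ} (h : (r : 𝓞 M) ∈ Q) :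
    (r : 𝓞 M) ∈ y • Q := by
  rw [Ideal.mem_pointwise_smul_iff_inv_smul_mem]
  have e1 : y⁻¹ • (r : 𝓞 M) = (r : 𝓞 M) := map_natCast (gi y⁻¹) r
  rw [e1]
  exact h

end one

section ctx

variable {L L₀ N₁ M : Type} [Field L] [NumberField L] [IsGalois ℚ L] [Field L₀] [NumberField L₀]
  [IsGalois ℚ L₀] [Field N₁] [NumberField N₁] [IsGalois ℚ N₁] [Field M] [NumberField M]
  [IsGalois ℚ M] [Algebra L₀ N₁] [Algebra N₁ M] [Algebra L M]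

/-- the decomposition elements at the primes dividing `r` -/
def Dec (r : ℕ) (σ : M ≃ₐ[ℚ] M) : Prop :=
  ∃ Q : Ideal (𝓞 M), Q.IsMaximal ∧ (r : 𝓞 M) ∈ Q ∧ σ ∈ decomp ℚ Q

lemma Dec.pow {r : ℕ} {σ : M ≃ₐ[ℚ] M} (h : Dec r σ) (n : ℕ) : Dec r (σ ^ n) := by
  obtain ⟨Q, h1, h2, h3⟩ := h
  exact ⟨Q, h1, h2, decomp_pow h3 n⟩

lemma Dec.zpow {r : ℕ} {σ : M ≃ₐ[ℚ] M} (h : Dec r σ) (n : ℤ) : Dec r (σ ^ n) := by
  obtain ⟨Q, h1, h2, h3⟩ := h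
  exact ⟨Q, h1, h2, decomp_zpow h3 n⟩

lemma Dec.conj {r : ℕ} {σ : M ≃ₐ[ℚ] M} (h : Dec r σ) (y : M ≃ₐ[ℚ] M) :
    Dec r (y * σ * y⁻¹) := by
  obtain ⟨Q, h1, h2, h3⟩ := h
  exact ⟨y • Q, smul_max h1, nat_mem_smul h2, decomp_conj h3⟩

lemma Dec.of_dvd {r r' : ℕ} (hr : r ∣ r') {σ : M ≃ₐ[ℚ] M} (h : Dec r σ) : Dec r' σ := by
  obtain ⟨Q, h1, h2, h3⟩ := h
  obtain ⟨k, rfl⟩ := hr
  refine ⟨Q, h1, ?_, h3⟩
  rw [Nat.cast_mul]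
  exact Q.mul_mem_right _ h2

/-- the local property of `L₀` -/
def LocA (L L₀ N₁ M : Type) [Field L] [NumberField L] [IsGalois ℚ L] [Field L₀] [NumberField L₀]
    [IsGalois ℚ L₀] [Field N₁] [NumberField N₁] [IsGalois ℚ N₁] [Field M] [NumberField M]
    [IsGalois ℚ M] [Algebra L₀ N₁] [Algebra N₁ M] [Algebra L M] (s : ℕ) : Prop :=
  ∀ (σ : M ≃ₐ[ℚ] M), Dec s σ → rq L₀ N₁ (rq N₁ M σ) = 1 → rq L M σ = 1

/-- the property of Schmidt -/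
def Schm (L₀ N₁ : Type) [Field L₀] [NumberField L₀]
    [IsGalois ℚ L₀] [Field N₁] [NumberField N₁] [IsGalois ℚ N₁] [Algebra L₀ N₁] (t : ℕ) : Prop :=
  ∀ (σ : N₁ ≃ₐ[ℚ] N₁) (Q Q' : Ideal (𝓞 N₁)), Q.IsMaximal → Q'.IsMaximal → (t : 𝓞 N₁) ∈ Q →
    (t : 𝓞 N₁) ∈ Q' → σ ∈ decomp ℚ Q → σ ∈ decomp ℚ Q' →
    rq L₀ N₁ σ ≠ 1 →
    Q.comap (algebraMap (𝓞 L₀) (𝓞 N₁)) = Q'.comap (algebraMap (𝓞 L₀) (𝓞 N₁))

/-- the local values are well defined -/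
theorem wd {s t : ℕ} (hst : s ∣ t) (hA : LocA L L₀ N₁ M s) (hB : Schm L₀ N₁ t)
    {σ σ' : M ≃ₐ[ℚ] M} (hσ : Dec s σ) (hσ' : Dec t σ') (h1 : rq N₁ M σ = rq N₁ M σ')
    (h0 : rq L₀ N₁ (rq N₁ M σ) ≠ 1) :
    Dec s σ' ∧ ∃ y : L ≃ₐ[ℚ] L, rq L M σ = y * rq L M σ' * y⁻¹ := by
  obtain ⟨Q, hQ, hsQ, hσQ⟩ := hσ
  obtain ⟨Q', hQ', htQ', hσQ'⟩ := hσ'
  let _ : Algebra L₀ M := ((algebraMap N₁ M).comp (algebraMap L₀ N₁)).toAlgebra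
  have htow : IsScalarTower L₀ N₁ M := IsScalarTower.of_algebraMap_eq fun x => rfl
  have hgal : IsGalois L₀ M := IsGalois.tower_top_of_isGalois ℚ L₀ M
  have htQ : (t : 𝓞 M) ∈ Q := by
    obtain ⟨k, rfl⟩ := hst
    rw [Nat.cast_mul]
    exact Q.mul_mem_right _ hsQ
  have h2 := hB (rq N₁ M σ) _ _ (comap_max (E := N₁) hQ) (comap_max (E := N₁) hQ')
    ((nat_mem_comap t).mpr htQ) ((nat_mem_comap t).mpr htQ') (decomp_res hσQ)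
    (h1 ▸ decomp_res hσQ') h0
  have hcomp : algebraMap (𝓞 L₀) (𝓞 M) = (algebraMap (𝓞 N₁) (𝓞 M)).comp
      (algebraMap (𝓞 L₀) (𝓞 N₁)) := by
    apply RingHom.ext
    intro x
    apply RingOfIntegers.ext
    rfl
  have h3 : Q.comap (algebraMap (𝓞 L₀) (𝓞 M)) = Q'.comap (algebraMap (𝓞 L₀) (𝓞 M)) := by
    rw [hcomp, ← Ideal.comap_comap, ← Ideal.comap_comap]
    exact h2
  have hsQ' : (s : 𝓞 M) ∈ Q' := by
    rw [← nat_mem_comap (E := L₀), ← h3, nat_mem_comap]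
    exact hsQ
  refine ⟨⟨Q', hQ', hsQ', hσQ'⟩, ?_⟩
  let P := Q.comap (algebraMap (𝓞 L₀) (𝓞 M))
  have hPm : P.IsMaximal := comap_max (E := L₀) hQ
  have hQp : Q.IsPrime := hQ.isPrime
  have hQp' : Q'.IsPrime := hQ'.isPrime
  have hl1 : Q.LiesOver P := ⟨rfl⟩
  have hl2 : Q'.LiesOver P := ⟨h3⟩
  have hfin : FiniteDimensional L₀ M := Module.Finite.of_restrictScalars_finite ℚ L₀ M
  obtain ⟨y, hy⟩ := Ideal.exists_smul_eq_of_isGaloisGroup P Q' Q (M ≃ₐ[L₀] M)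
  let y' : M ≃ₐ[ℚ] M := y.restrictScalars ℚ
  have hy' : y' • Q' = Q := by
    rw [← hy]
    ext x
    rw [Ideal.mem_pointwise_smul_iff_inv_smul_mem, Ideal.mem_pointwise_smul_iff_inv_smul_mem]
    have : (y'⁻¹ • x : 𝓞 M) = y⁻¹ • x := by
      apply RingOfIntegers.ext
      rfl
    rw [this]
  have h4 : y' * σ' * y'⁻¹ ∈ decomp ℚ Q := by
    rw [← hy']
    exact decomp_conj hσQ'
  have h5 : rq L₀ N₁ (rq N₁ M y') = 1 := by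
    rw [rq_eq_one]
    intro x
    apply (algebraMap N₁ M).injective
    rw [rq_apply]
    exact y.commutes x
  have h6 : rq L₀ N₁ (rq N₁ M (σ⁻¹ * (y' * σ' * y'⁻¹))) = 1 := by
    simp only [map_mul, map_inv, h5, h1]
    group
  have h7 := hA _ ⟨Q, hQ, hsQ, decomp_mul (decomp_inv hσQ) h4⟩ h6
  refine ⟨rq L M y', ?_⟩
  rw [map_mul, map_inv, inv_mul_eq_one] at h7
  rw [h7, map_mul, map_mul, map_inv]

open Classical in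
/-- the local values -/
noncomputable def theta (s : ℕ) (χ : (L ≃ₐ[ℚ] L) → ℂ) (L₀ N₁ M : Type) [Field L₀] [NumberField L₀]
    [IsGalois ℚ L₀] [Field N₁] [NumberField N₁] [IsGalois ℚ N₁] [Field M] [NumberField M]
    [IsGalois ℚ M] [Algebra L₀ N₁] [Algebra N₁ M] [Algebra L M] (τ : N₁ ≃ₐ[ℚ] N₁) : ℂ :=
  if h : ∃ σ : M ≃ₐ[ℚ] M, rq N₁ M σ = τ ∧ Dec s σ ∧ rq L₀ N₁ τ ≠ 1 then χ (rq L M h.choose) else 0

variable {χ : (L ≃ₐ[ℚ] L) → ℂ} {s t : ℕ}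

lemma theta_eq (hχ : ∀ g x, χ (x * g * x⁻¹) = χ g) (hst : s ∣ t) (hA : LocA L L₀ N₁ M s)
    (hB : Schm L₀ N₁ t) {σ : M ≃ₐ[ℚ] M} (hσ : Dec s σ) (h0 : rq L₀ N₁ (rq N₁ M σ) ≠ 1) :
    theta s χ L₀ N₁ M (rq N₁ M σ) = χ (rq L M σ) := by
  have h : ∃ σ' : M ≃ₐ[ℚ] M, rq N₁ M σ' = rq N₁ M σ ∧ Dec s σ' ∧ rq L₀ N₁ (rq N₁ M σ) ≠ 1 :=
    ⟨σ, rfl, hσ, h0⟩
  rw [theta, dif_pos h]
  obtain ⟨h1, h2, h3⟩ := h.choose_spec
  obtain ⟨-, y, hy⟩ := wd hst hA hB hσ (h2.of_dvd hst) h1.symm h0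
  rw [hy, hχ]

lemma theta_zero {τ : N₁ ≃ₐ[ℚ] N₁} (h : ¬ ∃ σ : M ≃ₐ[ℚ] M, rq N₁ M σ = τ ∧ Dec s σ ∧
    rq L₀ N₁ τ ≠ 1) : theta s χ L₀ N₁ M τ = 0 := by
  rw [theta, dif_neg h]

lemma theta_class (hχ : ∀ g x, χ (x * g * x⁻¹) = χ g) (hst : s ∣ t) (hA : LocA L L₀ N₁ M s)
    (hB : Schm L₀ N₁ t) (τ x : N₁ ≃ₐ[ℚ] N₁) :
    theta s χ L₀ N₁ M (x * τ * x⁻¹) = theta s χ L₀ N₁ M τ := by
  have key : ∀ (τ x : N₁ ≃ₐ[ℚ] N₁), (∃ σ : M ≃ₐ[ℚ] M, rq N₁ M σ = τ ∧ Dec s σ ∧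
      rq L₀ N₁ τ ≠ 1) → (∃ σ : M ≃ₐ[ℚ] M, rq N₁ M σ = x * τ * x⁻¹ ∧ Dec s σ ∧
      rq L₀ N₁ (x * τ * x⁻¹) ≠ 1) ∧
      theta s χ L₀ N₁ M (x * τ * x⁻¹) = theta s χ L₀ N₁ M τ := by
    rintro τ x ⟨σ, rfl, hσ, h0⟩
    have hfin : FiniteDimensional ℚ M := inferInstance
    obtain ⟨y, rfl⟩ := AlgEquiv.restrictNormalHom_surjective (F := ℚ) (K₁ := N₁) M x
    have h1 : rq N₁ M (y * σ * y⁻¹) = rq N₁ M y * rq N₁ M σ * (rq N₁ M y)⁻¹ := by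
      rw [map_mul, map_mul, map_inv]
    have h2 : rq L₀ N₁ (rq N₁ M (y * σ * y⁻¹)) ≠ 1 := by
      rw [h1, map_mul, map_mul, map_inv]
      intro h
      apply h0
      rw [mul_inv_eq_one] at h
      exact mul_eq_left.mp h
    refine ⟨⟨y * σ * y⁻¹, h1, hσ.conj y, h1 ▸ h2⟩, ?_⟩
    change theta s χ L₀ N₁ M (rq N₁ M y * rq N₁ M σ * (rq N₁ M y)⁻¹) = _
    rw [← h1, theta_eq hχ hst hA hB (hσ.conj y) h2, theta_eq hχ hst hA hB hσ h0, map_mul, map_mul,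
      map_inv, hχ]
  by_cases h : ∃ σ : M ≃ₐ[ℚ] M, rq N₁ M σ = τ ∧ Dec s σ ∧ rq L₀ N₁ τ ≠ 1
  · exact (key τ x h).2
  · rw [theta_zero h, theta_zero]
    intro h'
    apply h
    have h2 := (key _ x⁻¹ h').1
    have h3 : x⁻¹ * (x * τ * x⁻¹) * x⁻¹⁻¹ = τ := by group
    rwa [h3] at h2

end ctx

end Pool.Agent.K4H34.ST
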