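import Mathlib
import Pool.Agent.K4H34.ST.Main1

/-!
# The local values of a character: a virtual character up to a multiple
-/

set_option autoImplicit false
set_option linter.unusedSectionVars false

namespace Pool.Agent.K4H34.ST

open NumberField NumberField.ComplexEmbedding Polynomial Pool.Agent.R389 Pool.Agent.K4H74.ST
  Pool.Agent.K4H77.SL
open scoped Pointwise

open Pool.Agent.H541R3.ART in
/-- characters of cyclic (hyperelementary) subgroups, induced -/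
lemma ind_hyper_mem {G : Type} [Group G] [Finite G] {U : Subgroup G} (hU : Hyper U) {f : U → ℂ}
    (hf : IsChar f) : ind U f ∈ AddSubgroup.closure {f : G → ℂ |
      ∃ (V : Subgroup G) (ψ : V →* ℂˣ), f = ind V (lc ψ)} := by
  obtain ⟨V, _, _, _, ρ, rfl⟩ := hf
  have h1 := char_memP _ ρ rfl
  have h2 : AddSubmonoid.closure (Irr U) ≤ ((AddSubgroup.closure {f : G → ℂ |
      ∃ (V : Subgroup G) (ψ : V →* ℂˣ), f = ind V (lc ψ)}).comap (indHom U)).toAddSubmonoid := by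
    rw [AddSubmonoid.closure_le]
    intro χ hχ
    obtain ⟨W, ψ, -, -, h3⟩ := ind_mono_mem hU hχ
    change ind U χ ∈ AddSubgroup.closure {f : G → ℂ |
      ∃ (V : Subgroup G) (ψ : V →* ℂˣ), f = ind V (lc ψ)}
    rw [h3]
    exact AddSubgroup.subset_closure ⟨W, ψ, rfl⟩
  exact h2 h1

lemma map_eq_one_of_zpowers {G H : Type} [Group G] [Group H] (f : G →* H) {x y : G}
    (h : Subgroup.zpowers x = Subgroup.zpowers y) (hx : f x = 1) : f y = 1 := by
  have hy : y ∈ Subgroup.zpowers x := by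
    rw [h]
    exact Subgroup.mem_zpowers y
  obtain ⟨j, rfl⟩ := hy
  change f (x ^ j) = 1
  rw [map_zpow, hx, one_zpow]

section ctx

variable {L L₀ N₁ M : Type} [Field L] [NumberField L] [IsGalois ℚ L] [Field L₀] [NumberField L₀]
  [IsGalois ℚ L₀] [Field N₁] [NumberField N₁] [IsGalois ℚ N₁] [Field M] [NumberField M]
  [IsGalois ℚ M] [Algebra L₀ N₁] [Algebra N₁ M] [Algebra L M]

/-- the homomorphism given by the decomposition element `σ` -/
lemma exists_rho {G : Type} [Group G] [Finite G] {s : ℕ} (hA : LocA L L₀ N₁ M s)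
    (π : G →* (N₁ ≃ₐ[ℚ] N₁)) {σ : M ≃ₐ[ℚ] M} (hσ : Dec s σ) (g : G) (hg : π g = rq N₁ M σ) :
    ∃ ρ : Subgroup.zpowers g →* (L ≃ₐ[ℚ] L), ∀ j : ℤ, ρ ⟨g ^ j, j, rfl⟩ = rq L M (σ ^ j) := by
  have h1 : rq L M (σ ^ orderOf g) = 1 := by
    apply hA _ (hσ.pow _)
    rw [map_pow, ← hg, ← map_pow, pow_orderOf_eq_one, map_one, map_one]
  have hgen : ∀ x : Subgroup.zpowers g,
      x ∈ Subgroup.zpowers (⟨g, Subgroup.mem_zpowers g⟩ : Subgroup.zpowers g) := by
    rintro ⟨x, j, rfl⟩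
    exact ⟨j, Subtype.ext rfl⟩
  have hord : orderOf (rq L M σ) ∣
      orderOf (⟨g, Subgroup.mem_zpowers g⟩ : Subgroup.zpowers g) := by
    rw [Subgroup.orderOf_mk]
    apply orderOf_dvd_of_pow_eq_one
    rw [← map_pow, h1]
  refine ⟨monoidHomOfForallMemZpowers hgen hord, fun j => ?_⟩
  have h2 : (⟨g ^ j, j, rfl⟩ : Subgroup.zpowers g) = ⟨g, Subgroup.mem_zpowers g⟩ ^ j :=
    Subtype.ext rfl
  rw [h2, map_zpow, monoidHomOfForallMemZpowers_apply_gen, map_zpow]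

variable {χ : (L ≃ₐ[ℚ] L) → ℂ} {s t : ℕ}

/-- some multiple of the function `theta` is a virtual character -/
theorem theta_mem (hG1 : StG1) (hG2 : StG2) (hχc : IsChar χ) (hst : s ∣ t)
    (hA : LocA L L₀ N₁ M s) (hB : Schm L₀ N₁ t) :
    theta s χ L₀ N₁ M ∈ sat (AddSubgroup.closure {f : (N₁ ≃ₐ[ℚ] N₁) → ℂ |
      ∃ (V : Subgroup (N₁ ≃ₐ[ℚ] N₁)) (ψ : V →* ℂˣ), f = ind V (lc ψ)}) := by
  have hfin : FiniteDimensional ℚ N₁ := inferInstance
  have hχ : ∀ g x, χ (x * g * x⁻¹) = χ g := by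
    obtain ⟨V, _, _, _, ρ, rfl⟩ := hχc
    intro g x
    exact ρ.char_conj g x
  refine hG1 _ _ (fun τ x => theta_class hχ hst hA hB τ x) _ fun τ => ?_
  by_cases h : ∃ τ' : N₁ ≃ₐ[ℚ] N₁, Subgroup.zpowers τ' = Subgroup.zpowers τ ∧
      ∃ σ : M ≃ₐ[ℚ] M, rq N₁ M σ = τ' ∧ Dec s σ ∧ rq L₀ N₁ τ' ≠ 1
  · obtain ⟨τ', hz, σ', h1, h2, h3⟩ := h
    have hτ : τ ∈ Subgroup.zpowers τ' := by
      rw [hz]
      exact Subgroup.mem_zpowers τ
    obtain ⟨j, hj⟩ := hτ
    have hj' : τ' ^ j = τ := hj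
    have hσ : Dec s (σ' ^ j) := h2.zpow j
    have hστ : rq N₁ M (σ' ^ j) = τ := by rw [map_zpow, h1, hj']
    obtain ⟨ρ, hρ⟩ := exists_rho hA (MonoidHom.id _) hσ τ (by rw [hστ]; rfl)
    refine hG2 _ τ _ _ (fun x => χ (ρ x)) ?_ ?_
    · rintro ⟨x, k, rfl⟩ hx
      have hx' : Subgroup.zpowers (τ ^ k) = Subgroup.zpowers τ := hx
      have e1 : rq N₁ M ((σ' ^ j) ^ k) = τ ^ k := by rw [map_zpow, hστ]
      have e2 : rq L₀ N₁ (rq N₁ M ((σ' ^ j) ^ k)) ≠ 1 := by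
        rw [e1]
        intro h0
        exact h3 (map_eq_one_of_zpowers (rq L₀ N₁) (hx'.trans hz.symm) h0)
      have e3 := theta_eq hχ hst hA hB (hσ.zpow k) e2
      rw [e1] at e3
      change theta s χ L₀ N₁ M (τ ^ k) = χ (ρ ⟨τ ^ k, k, rfl⟩)
      rw [e3, hρ]
    · intro V hV
      have hy : Hyper V := (Hyper.cyclic τ).of_injective (Subgroup.inclusion hV)
        (Subgroup.inclusion_injective hV)
      exact ind_hyper_mem hy (IsChar.comp hχc (ρ.comp (Subgroup.inclusion hV)))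
  · have h0 : gen τ (theta s χ L₀ N₁ M) = 0 := by
      funext x
      unfold gen
      split_ifs with hx
      · exact theta_zero fun ⟨σ, h1⟩ => h ⟨_, hx, σ, h1⟩
      · rfl
    rw [h0, ind_zero]
    exact zero_mem _

end ctx

end Pool.Agent.K4H34.ST
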