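import Mathlib
import Pool.Agent.K4H34.ST.Main2

/-!
# One cyclic subgroup
-/

set_option autoImplicit false
set_option linter.unusedSectionVars false

namespace Pool.Agent.K4H34.ST

open NumberField NumberField.ComplexEmbedding Polynomial Pool.Agent.R389 Pool.Agent.K4H74.ST
  Pool.Agent.K4H77.SL Pool.Agent.H302R2 Pool.Agent.H302R3
open scoped Pointwise

lemma cc_real {F : Type} [Field F] [NumberField F] [IsGalois ℚ F] (hF : IsTotallyReal F)
    {c : F ≃ₐ[ℚ] F} (hc : c ∈ CC ℚ F) : c = 1 := by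
  obtain ⟨φ, hφ⟩ := hc
  have h1 : ComplexEmbedding.IsReal φ := by
    have h2 := hF.isReal (InfinitePlace.mk φ)
    rw [InfinitePlace.isReal_mk_iff] at h2
    exact h2
  ext x
  apply φ.injective
  rw [hφ.eq]
  have h3 := RingHom.congr_fun h1 x
  exact h3

/-- twists of characters are characters -/
lemma isChar_twist {G : Type} [Group G] (ψ : G →* ℂˣ) {χ : G → ℂ} (h : IsChar χ) :
    IsChar (fun g => ((ψ g : ℂˣ) : ℂ) * χ g) := by
  obtain ⟨V, _, _, _, ρ, rfl⟩ := h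
  let ρ' : Representation ℂ G V :=
    { toFun := fun g => ((ψ g : ℂˣ) : ℂ) • ρ g
      map_one' := by simp
      map_mul' := by
        intro a b
        rw [map_mul, map_mul, Units.val_mul, smul_mul_smul_comm] }
  refine ⟨V, inferInstance, inferInstance, inferInstance, ρ', ?_⟩
  funext g
  change _ = LinearMap.trace ℂ V (((ψ g : ℂˣ) : ℂ) • ρ g)
  rw [map_smul]
  rfl

section ctx

variable {L L₀ N₁ M N : Type} [Field L] [NumberField L] [IsGalois ℚ L] [Field L₀] [NumberField L₀]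
  [IsGalois ℚ L₀] [Field N₁] [NumberField N₁] [IsGalois ℚ N₁] [Field M] [NumberField M]
  [IsGalois ℚ M] [Field N] [NumberField N] [IsGalois ℚ N] [Algebra L₀ N₁] [Algebra N₁ M]
  [Algebra L M] [Algebra M N]

/-- the use of the theorem of Schmidt -/
lemma dec_of_power {t : ℕ} (hS : Schm M N t) {g u : N ≃ₐ[ℚ] N} (hu : u ∈ Subgroup.zpowers g)
    {Q : Ideal (𝓞 N)} (hQ : Q.IsMaximal) (ht : (t : 𝓞 N) ∈ Q) (huQ : u ∈ decomp ℚ Q)
    (h1 : rq M N u ≠ 1) : rq M N g ∈ decomp ℚ (Q.comap (algebraMap (𝓞 M) (𝓞 N))) := by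
  have h2 : g * u * g⁻¹ = u := by
    obtain ⟨k, rfl⟩ := hu
    simp only
    rw [← zpow_one_add, add_comm, zpow_add_one, mul_inv_cancel_right]
  have h3 : u ∈ decomp ℚ (g • Q) := by
    have := decomp_conj (y := g) huQ
    rwa [h2] at this
  have h5 := hS u Q (g • Q) hQ (smul_max hQ) ht (nat_mem_smul ht) huQ h3 h1
  intro y
  conv_lhs => rw [h5]
  rw [Ideal.mem_comap, Ideal.mem_comap, rq_gi]
  change g • algebraMap (𝓞 M) (𝓞 N) y ∈ g • Q ↔ _
  rw [Ideal.smul_mem_pointwise_smul_iff]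

variable {Mg : Type} [CommGroup Mg] {A : ArtinInvariant Mg}

lemma const_case (hG2 : StG2) (hR : TrivOne A) {F : (N ≃ₐ[ℚ] N) → ℂ} {g : N ≃ₐ[ℚ] N} {z : ℤ}
    (hz : ∀ x : Subgroup.zpowers g, Subgroup.zpowers (x : N ≃ₐ[ℚ] N) = Subgroup.zpowers g →
      F x = z) :
    ind (Subgroup.zpowers g) (gen g F) ∈ sat (TT A (K := ℚ) (L := N) ⊥) := by
  have hfin : FiniteDimensional ℚ N := inferInstance
  refine hG2 (N ≃ₐ[ℚ] N) g _ F (fun _ => (z : ℂ)) hz fun V hV => ?_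
  have h1 : (fun _ : V => (z : ℂ)) = z • (fun _ : V => (1 : ℂ)) := by
    funext v
    simp
  rw [h1]
  have h2 := map_zsmul (indHom (k := ℂ) V) z (fun _ : V => (1 : ℂ))
  rw [indHom_apply, indHom_apply] at h2
  rw [h2]
  exact zsmul_mem (ind_one_mem hR V) z

lemma gen_sub {G : Type} [Group G] (g : G) (F F' : G → ℂ) :
    gen g (fun x => F x - F' x) = gen g F - gen g F' := by
  funext x
  simp only [gen, Pi.sub_apply]
  split_ifs
  · rfl
  · simp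

/-- the part of `χ` itself -/
theorem f_part (hG2 : StG2) (hSp : StS) {m s t : ℕ} (hTS : TrivSplit A m) (hms : m ∣ s)
    (hst : s ∣ t) (hC : Schm M N t)
    (hramL : ∀ P : Ideal (𝓞 L), (∃ g ∈ inertia ℚ P, g ≠ 1) → (s : 𝓞 L) ∈ P)
    {χ : (L ≃ₐ[ℚ] L) → ℂ} (hχ : IsChar χ) {g : N ≃ₐ[ℚ] N} (hg : ¬ Dec s (rq M N g))
    (hcx : ∀ c ∈ CC ℚ N, c ∉ Subgroup.zpowers g) :
    ind (Subgroup.zpowers g) (gen g (fun x => χ (rq L M (rq M N x))))
      ∈ sat (TT A (K := ℚ) (L := N) ⊥) := by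
  have hfin : FiniteDimensional ℚ N := inferInstance
  have hfinL : FiniteDimensional ℚ L := inferInstance
  let r : (N ≃ₐ[ℚ] N) →* (L ≃ₐ[ℚ] L) := (rq L M).comp (rq M N)
  refine hG2 (N ≃ₐ[ℚ] N) g _ _ (fun x => χ (rq L M (rq M N (x : N ≃ₐ[ℚ] N)))) (fun x _ => rfl)
    fun V hV => ?_
  have hcyc : IsCyclic V := isCyclic_of_injective (Subgroup.inclusion hV)
    (Subgroup.inclusion_injective hV)
  have hdec : ∀ u ∈ V, ∀ Q : Ideal (𝓞 N), Q.IsMaximal → u ∈ decomp ℚ Q → (s : 𝓞 N) ∈ Q →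
      r u = 1 := by
    intro u hu Q hQ huQ hs
    by_contra hne
    have h1 : rq M N u ≠ 1 := by
      intro h
      apply hne
      change rq L M (rq M N u) = 1
      rw [h, map_one]
    have h2 := dec_of_power hC (hV hu) hQ (by
      obtain ⟨k, rfl⟩ := hst
      rw [Nat.cast_mul]
      exact Q.mul_mem_right _ hs) huQ h1
    exact hg ⟨_, comap_max hQ, (nat_mem_comap s).mpr hs, h2⟩
  refine hSp Mg A m hTS N V hcyc (fixed_complex V fun c hc hcV => hcx c hc (hV hcV))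
    (L ≃ₐ[ℚ] L) (r.comp V.subtype) χ hχ (V ⊓ r.ker) inf_le_left ?_ ?_ ?_
  · intro u hu
    exact hu.2
  · intro u hu Q hQ huQ hm
    refine ⟨hu, hdec u hu Q hQ huQ ?_⟩
    obtain ⟨k, rfl⟩ := hms
    rw [Nat.cast_mul]
    exact Q.mul_mem_right _ hm
  · intro u hu Q hQ huQ hin
    refine ⟨hu, ?_⟩
    change r u = 1
    by_cases hs : (s : 𝓞 N) ∈ Q
    · exact hdec u hu Q hQ huQ hs
    by_contra hne
    apply hs
    rw [← nat_mem_comap (E := M), ← nat_mem_comap (E := L)]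
    apply hramL
    refine ⟨r u, ?_, hne⟩
    intro x
    rw [Ideal.mem_comap, Ideal.mem_comap]
    have h1 : algebraMap (𝓞 M) (𝓞 N) (algebraMap (𝓞 L) (𝓞 M) (gi (r u) x - x))
        = gi u (algebraMap (𝓞 M) (𝓞 N) (algebraMap (𝓞 L) (𝓞 M) x))
          - algebraMap (𝓞 M) (𝓞 N) (algebraMap (𝓞 L) (𝓞 M) x) := by
      rw [map_sub, map_sub]
      change algebraMap (𝓞 M) (𝓞 N) (algebraMap (𝓞 L) (𝓞 M) (gi (rq L M (rq M N u)) x)) - _ = _
      rw [rq_gi, rq_gi]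
    rw [h1]
    apply hin
    intro w hw
    have h2 : rq L M (rq M N w) = 1 := hw.2
    rw [← rq_gi, ← rq_gi, h2, gi_one]

/-- the part of the twisted local values -/
theorem g_part (hG2 : StG2) (hSp : StS) {m s t : ℕ} (hR : TrivOne A) (hTS : TrivSplit A m)
    (hms : m ∣ s) (hst : s ∣ t)
    (hA : LocA L L₀ N₁ M s) (hB : Schm L₀ N₁ t) (hC : Schm M N t)
    (hram0 : ∀ P : Ideal (𝓞 L₀), (∃ g ∈ inertia ℚ P, g ≠ 1) → (t : 𝓞 L₀) ∈ P)
    (ε : (M ≃ₐ[ℚ] M) →* ℂˣ) (η : 𝓞 M) (hεη : ∀ σ, ε σ = 1 ↔ gi σ η = η)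
    (hεi : ∀ (σ : M ≃ₐ[ℚ] M) (Q : Ideal (𝓞 M)), Q.IsMaximal → (t : 𝓞 M) ∉ Q →
        gi σ η - η ∈ Q → ε σ = 1)
    {χ : (L ≃ₐ[ℚ] L) → ℂ} (hχ : IsChar χ) {g : N ≃ₐ[ℚ] N} (hg : ¬ Dec s (rq M N g))
    (hcx : ∀ c ∈ CC ℚ N, c ∉ Subgroup.zpowers g) :
    ind (Subgroup.zpowers g) (gen g (fun x => ((ε (rq M N x) : ℂˣ) : ℂ) *
      theta s χ L₀ N₁ M (rq N₁ M (rq M N x)))) ∈ sat (TT A (K := ℚ) (L := N) ⊥) := by
  have hfin : FiniteDimensional ℚ N := inferInstance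
  have hfinM : FiniteDimensional ℚ M := inferInstance
  have hfinL : FiniteDimensional ℚ L := inferInstance
  have hχc : ∀ g x, χ (x * g * x⁻¹) = χ g := (IsChar.heil hχ).conj
  by_cases hw : ∃ σ : M ≃ₐ[ℚ] M, rq N₁ M σ = rq N₁ M (rq M N g) ∧ Dec s σ ∧
      rq L₀ N₁ (rq N₁ M (rq M N g)) ≠ 1
  swap
  · refine const_case hG2 hR (z := 0) fun x hx => ?_
    rw [theta_zero, mul_zero, Int.cast_zero]
    rintro ⟨σ, h1, h2, h3⟩
    apply hw
    obtain ⟨k, hk⟩ : g ∈ Subgroup.zpowers (x : N ≃ₐ[ℚ] N) := by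
      rw [hx]
      exact Subgroup.mem_zpowers g
    have hk' : g = (x : N ≃ₐ[ℚ] N) ^ k := hk.symm
    obtain ⟨l, hl⟩ := x.2
    have hl' : (x : N ≃ₐ[ℚ] N) = g ^ l := hl.symm
    refine ⟨σ ^ k, ?_, h2.zpow k, ?_⟩
    · rw [hk', map_zpow, map_zpow, map_zpow, h1]
    · intro h4
      apply h3
      rw [hl', map_zpow, map_zpow, map_zpow, h4, one_zpow]
  obtain ⟨σ, h1, h2, h3⟩ := hw
  have hnt : ¬ Dec t (rq M N g) := by
    intro h
    exact hg (wd hst hA hB h2 h h1 (by rw [h1]; exact h3)).1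
  obtain ⟨ρ, hρ⟩ := exists_rho hA ((rq N₁ M).comp (rq M N)) h2 g h1.symm
  have hεf : Finite ε.range := by
    have : Set.Finite (Set.range ε) := Set.finite_range ε
    exact this
  refine hG2 (N ≃ₐ[ℚ] N) g _ _ (fun x => ((ε (rq M N (x : N ≃ₐ[ℚ] N)) : ℂˣ) : ℂ) * χ (ρ x)) ?_
    fun V hV => ?_
  · rintro ⟨x, j, rfl⟩ hx
    simp only at hx ⊢
    rw [hρ]
    congr 1
    have h4 : rq N₁ M (rq M N (g ^ j)) = rq N₁ M (σ ^ j) := by
      rw [map_zpow, map_zpow, map_zpow, h1]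
    rw [h4]
    apply theta_eq hχc hst hA hB (h2.zpow j)
    rw [← h4]
    intro h5
    apply h3
    obtain ⟨k, hk⟩ : g ∈ Subgroup.zpowers (g ^ j) := by
      rw [hx]
      exact Subgroup.mem_zpowers g
    have hk' : g = (g ^ j) ^ k := hk.symm
    rw [hk', map_zpow, map_zpow, map_zpow, h5, one_zpow]
  have hcyc : IsCyclic V := isCyclic_of_injective (Subgroup.inclusion hV)
    (Subgroup.inclusion_injective hV)
  let r0 : (N ≃ₐ[ℚ] N) →* (L₀ ≃ₐ[ℚ] L₀) := ((rq L₀ N₁).comp (rq N₁ M)).comp (rq M N)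
  let κ : V →* ε.range × (L ≃ₐ[ℚ] L) :=
    ((ε.rangeRestrict).comp ((rq M N).comp V.subtype)).prod (ρ.comp (Subgroup.inclusion hV))
  let ψ : ε.range × (L ≃ₐ[ℚ] L) →* ℂˣ := ε.range.subtype.comp (MonoidHom.fst _ _)
  have hζ0 : IsChar (fun y : ε.range × (L ≃ₐ[ℚ] L) =>
      χ (MonoidHom.snd ε.range (L ≃ₐ[ℚ] L) y)) :=
    Pool.Agent.K4H77.SL.IsChar.comp hχ (MonoidHom.snd ε.range (L ≃ₐ[ℚ] L))
  have hζ : IsChar (fun y : ε.range × (L ≃ₐ[ℚ] L) => ((ψ y : ℂˣ) : ℂ) * χ y.2) :=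
    isChar_twist ψ hζ0
  have hone : ∀ u ∈ V, ∀ Q : Ideal (𝓞 N), Q.IsMaximal → u ∈ decomp ℚ Q → (t : 𝓞 N) ∈ Q →
      rq M N u = 1 := by
    intro u hu Q hQ huQ ht
    by_contra hne
    have h5 := dec_of_power hC (hV hu) hQ ht huQ hne
    exact hnt ⟨_, comap_max hQ, (nat_mem_comap t).mpr ht, h5⟩
  refine hSp Mg A m hTS N V hcyc (fixed_complex V fun c hc hcV => hcx c hc (hV hcV))
    (ε.range × (L ≃ₐ[ℚ] L)) κ _ hζ (V ⊓ (r0.ker ⊓ (ε.comp (rq M N)).ker)) inf_le_left ?_ ?_ ?_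
  · rintro ⟨u, huV⟩ ⟨-, hu0, huε⟩
    obtain ⟨j, rfl⟩ := hV huV
    apply Prod.ext
    · apply Subtype.ext
      exact huε
    · change ρ ⟨g ^ j, _⟩ = 1
      rw [hρ]
      apply hA _ (h2.zpow j)
      have h4 : rq N₁ M (rq M N (g ^ j)) = rq N₁ M (σ ^ j) := by
        rw [map_zpow, map_zpow, map_zpow, h1]
      rw [← h4]
      exact hu0
  · intro u hu Q hQ huQ hm
    have h5 : rq M N u = 1 := by
      apply hone u hu Q hQ huQ
      obtain ⟨k, rfl⟩ := hms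
      obtain ⟨k', rfl⟩ := hst
      rw [Nat.cast_mul, Nat.cast_mul]
      exact Q.mul_mem_right _ (Q.mul_mem_right _ hm)
    refine ⟨hu, ?_, ?_⟩
    · change rq L₀ N₁ (rq N₁ M (rq M N u)) = 1
      rw [h5, map_one, map_one]
    · change ε (rq M N u) = 1
      rw [h5, map_one]
  · intro u hu Q hQ huQ hin
    refine ⟨hu, ?_, ?_⟩
    · change rq L₀ N₁ (rq N₁ M (rq M N u)) = 1
      by_cases ht : (t : 𝓞 N) ∈ Q
      · rw [hone u hu Q hQ huQ ht, map_one, map_one]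
      by_contra hne
      apply ht
      rw [← nat_mem_comap (E := M), ← nat_mem_comap (E := N₁), ← nat_mem_comap (E := L₀)]
      apply hram0
      refine ⟨_, ?_, hne⟩
      intro x
      rw [Ideal.mem_comap, Ideal.mem_comap, Ideal.mem_comap, map_sub, map_sub, map_sub, rq_gi,
        rq_gi, rq_gi]
      apply hin
      intro w hw
      have h6 : rq L₀ N₁ (rq N₁ M (rq M N w)) = 1 := hw.2.1
      rw [← rq_gi, ← rq_gi, ← rq_gi, h6, gi_one]
    · change ε (rq M N u) = 1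
      by_cases ht : (t : 𝓞 N) ∈ Q
      · rw [hone u hu Q hQ huQ ht, map_one]
      apply hεi _ (Q.comap (algebraMap (𝓞 M) (𝓞 N))) (comap_max hQ)
      · rw [nat_mem_comap]
        exact ht
      · rw [Ideal.mem_comap, map_sub, rq_gi]
        apply hin
        intro w hw
        have h6 : ε (rq M N w) = 1 := hw.2.2
        rw [← rq_gi, (hεη _).mp h6]

end ctx

end Pool.Agent.K4H34.ST
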