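import Mathlib
import Pool.Agent.K4H34.ST.Main3

/-!
# All cyclic subgroups
-/

set_option autoImplicit false
set_option linter.unusedSectionVars false

namespace Pool.Agent.K4H34.ST

open NumberField NumberField.ComplexEmbedding Polynomial Pool.Agent.R389 Pool.Agent.K4H74.ST
  Pool.Agent.K4H77.SL Pool.Agent.H302R2 Pool.Agent.H302R3
open scoped Pointwise

section ctx

variable {L L₀ N₁ M N : Type} [Field L] [NumberField L] [IsGalois ℚ L] [Field L₀] [NumberField L₀]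
  [IsGalois ℚ L₀] [Field N₁] [NumberField N₁] [IsGalois ℚ N₁] [Field M] [NumberField M]
  [IsGalois ℚ M] [Field N] [NumberField N] [IsGalois ℚ N] [Algebra L₀ N₁] [Algebra N₁ M]
  [Algebra L M] [Algebra M N]

variable {Mg : Type} [CommGroup Mg] {A : ArtinInvariant Mg}

/-- the difference of a character and the twist of its local values, on one cyclic subgroup -/
theorem core (hG2 : StG2) (hSp : StS) {m s t : ℕ} (hR : TrivOne A) (hTS : TrivSplit A m)
    (hms : m ∣ s) (hst : s ∣ t)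
    (hA : LocA L L₀ N₁ M s) (hB : Schm L₀ N₁ t) (hC : Schm M N t)
    (hramL : ∀ P : Ideal (𝓞 L), (∃ g ∈ inertia ℚ P, g ≠ 1) → (s : 𝓞 L) ∈ P)
    (hram0 : ∀ P : Ideal (𝓞 L₀), (∃ g ∈ inertia ℚ P, g ≠ 1) → (t : 𝓞 L₀) ∈ P)
    (hN₁ : IsTotallyReal N₁)
    (hcc : ∀ c ∈ CC ℚ N, ∀ g : N ≃ₐ[ℚ] N, g * c = c * g → rq M N g = 1 ∨ rq M N g = rq M N c)
    (ε : (M ≃ₐ[ℚ] M) →* ℂˣ) (η : 𝓞 M) (hεη : ∀ σ, ε σ = 1 ↔ gi σ η = η)
    (hεs : ∀ σ, Dec s σ → ε σ = 1)
    (hεi : ∀ (σ : M ≃ₐ[ℚ] M) (Q : Ideal (𝓞 M)), Q.IsMaximal → (t : 𝓞 M) ∉ Q →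
        gi σ η - η ∈ Q → ε σ = 1)
    {χ : (L ≃ₐ[ℚ] L) → ℂ} (hχ : IsChar χ) (g : N ≃ₐ[ℚ] N) :
    ind (Subgroup.zpowers g) (gen g (fun x => χ (rq L M (rq M N x)) -
      ((ε (rq M N x) : ℂˣ) : ℂ) * theta s χ L₀ N₁ M (rq N₁ M (rq M N x))))
        ∈ sat (TT A (K := ℚ) (L := N) ⊥) := by
  have hfin : FiniteDimensional ℚ N := inferInstance
  have hfinM : FiniteDimensional ℚ M := inferInstance
  have hfinL : FiniteDimensional ℚ L := inferInstance
  have hχc : ∀ g x, χ (x * g * x⁻¹) = χ g := (IsChar.heil hχ).conj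
  let r : (N ≃ₐ[ℚ] N) →* (L ≃ₐ[ℚ] L) := (rq L M).comp (rq M N)
  have hr : IsChar (fun x : N ≃ₐ[ℚ] N => χ (r x)) := Pool.Agent.K4H77.SL.IsChar.comp hχ r
  -- rational values of the character, no local values
  have hrat : ∀ g : N ≃ₐ[ℚ] N, (∃ q : ℚ, χ (r g) = q) →
      (∀ x ∈ Subgroup.zpowers g, rq L₀ N₁ (rq N₁ M (rq M N x)) = 1) →
      ind (Subgroup.zpowers g) (gen g (fun x => χ (rq L M (rq M N x)) -
      ((ε (rq M N x) : ℂˣ) : ℂ) * theta s χ L₀ N₁ M (rq N₁ M (rq M N x))))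
        ∈ sat (TT A (K := ℚ) (L := N) ⊥) := by
    intro g hq h0
    have h00 : IsChar (0 : (N ≃ₐ[ℚ] N) → ℂ) := IsChar.zero
    obtain ⟨z, hz⟩ := rat_int (IsChar.heil hr) (IsChar.heil h00) g (by
      obtain ⟨q, hq⟩ := hq
      exact ⟨q, by rw [Pi.zero_apply, sub_zero]; exact hq⟩)
    refine const_case hG2 hR (z := z) fun x hx => ?_
    rw [theta_zero (by
      rintro ⟨-, -, -, h⟩
      exact h (h0 x x.2)), mul_zero, sub_zero]
    have h2 := hz x hx
    rw [Pi.zero_apply, sub_zero] at h2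
    exact h2
  by_cases hc : ∃ c ∈ CC ℚ N, c ∈ Subgroup.zpowers g
  · obtain ⟨c, hc, hcg⟩ := hc
    have hcsq : c * c = 1 := by
      obtain ⟨φ, hφ⟩ := hc
      exact isConj_sq hφ
    have hcase : ∀ x ∈ Subgroup.zpowers g, rq M N x = 1 ∨ rq M N x = rq M N c := by
      intro x hx
      apply hcc c hc
      obtain ⟨i, rfl⟩ := hx
      obtain ⟨j, rfl⟩ := hcg
      simp only
      rw [← zpow_add, ← zpow_add, add_comm]
    have hc1 : rq N₁ M (rq M N c) = 1 := cc_real hN₁ (CC_res (CC_res hc))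
    apply hrat
    · apply rat_invol (IsChar.heil hχ)
      rcases hcase g (Subgroup.mem_zpowers g) with h | h
      · change rq L M (rq M N g) * rq L M (rq M N g) = 1
        rw [h, map_one, mul_one]
      · change rq L M (rq M N g) * rq L M (rq M N g) = 1
        rw [h, ← map_mul, ← map_mul, hcsq, map_one, map_one]
    · intro x hx
      rcases hcase x hx with h | h
      · rw [h, map_one, map_one]
      · rw [h, hc1, map_one]
  push Not at hc
  by_cases hg : Dec s (rq M N g)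
  · by_cases h0 : rq L₀ N₁ (rq N₁ M (rq M N g)) = 1
    · apply hrat
      · have h1 : r g = 1 := hA _ hg h0
        rw [h1]
        exact rat_invol (IsChar.heil hχ) (mul_one 1)
      · rintro x ⟨j, rfl⟩
        simp only
        rw [map_zpow, map_zpow, map_zpow, h0, one_zpow]
    · refine const_case hG2 hR (z := 0) ?_
      rintro ⟨x, j, rfl⟩ hx
      simp only at hx ⊢
      have hd : Dec s (rq M N (g ^ j)) := by
        rw [map_zpow]
        exact hg.zpow j
      have h0' : rq L₀ N₁ (rq N₁ M (rq M N (g ^ j))) ≠ 1 := by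
        intro h5
        apply h0
        obtain ⟨k, hk⟩ : g ∈ Subgroup.zpowers (g ^ j) := by
          rw [hx]
          exact Subgroup.mem_zpowers g
        have hk' : g = (g ^ j) ^ k := hk.symm
        rw [hk', map_zpow, map_zpow, map_zpow, h5, one_zpow]
      rw [theta_eq hχc hst hA hB hd h0', hεs _ hd]
      simp
  · rw [gen_sub, ind_sub]
    exact sub_mem (f_part hG2 hSp hTS hms hst hC hramL hχ hg hc)
      (g_part hG2 hSp hR hTS hms hst hA hB hC hram0 ε η hεη hεi hχ hg hc)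

end ctx

end Pool.Agent.K4H34.ST
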