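import Mathlib
import Pool.Agent.K4H34.ST.Spec
import Pool.Agent.K4H74.SO.Odd

/-!
# Totally odd characters
-/

set_option autoImplicit false
set_option linter.unusedSectionVars false

namespace Pool.Agent.K4H34.ST

open NumberField NumberField.ComplexEmbedding Pool.Agent.R389 Pool.Agent.K4H74.ST
  Pool.Agent.K4H77.SL

/-- **ODD**: the twist of a function on the group of a totally real field by a totally odd
character. -/
theorem odd {Mg : Type} [CommGroup Mg] {A : ArtinInvariant Mg} (hO : TrivOdd A)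
    (N N₁ : Type) [Field N] [NumberField N] [IsGalois ℚ N] [Field N₁] [NumberField N₁]
    [IsGalois ℚ N₁] [Algebra N₁ N] (hN₁ : IsTotallyReal N₁) (ε : (N ≃ₐ[ℚ] N) →* ℂˣ)
    (hε : ∀ c ∈ CC ℚ N, ε c = -1) (θ : (N₁ ≃ₐ[ℚ] N₁) → ℂ)
    (hθ : θ ∈ sat (AddSubgroup.closure {f : (N₁ ≃ₐ[ℚ] N₁) → ℂ |
      ∃ (V : Subgroup (N₁ ≃ₐ[ℚ] N₁)) (ψ : V →* ℂˣ), f = ind V (lc ψ)})) :
    (fun g => ((ε g : ℂˣ) : ℂ) * θ (AlgEquiv.restrictNormalHom N₁ g))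
      ∈ sat (TT A (K := ℚ) (L := N) ⊥) := by
  obtain ⟨n, hn, h⟩ := hθ
  refine ⟨n, hn, ?_⟩
  have hfin1 : FiniteDimensional ℚ N₁ := inferInstance
  let T : ((N₁ ≃ₐ[ℚ] N₁) → ℂ) →+ ((N ≃ₐ[ℚ] N) → ℂ) :=
    { toFun := fun f g => ((ε g : ℂˣ) : ℂ) * f (AlgEquiv.restrictNormalHom N₁ g)
      map_zero' := by funext g; simp
      map_add' := by intro a b; funext g; simp [mul_add] }
  have h1 : AddSubgroup.closure {f : (N₁ ≃ₐ[ℚ] N₁) → ℂ |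
      ∃ (V : Subgroup (N₁ ≃ₐ[ℚ] N₁)) (ψ : V →* ℂˣ), f = ind V (lc ψ)} ≤
      (TT A (K := ℚ) (L := N) ⊥).comap T := by
    rw [AddSubgroup.closure_le]
    rintro f ⟨V, ψ, rfl⟩
    exact Pool.Agent.K4H74.SO.val_odd hO ℚ N N₁ inferInstance hN₁ ε hε (IsChar.ind_lin V ψ)
  have h2 := h1 h
  rw [AddSubgroup.mem_comap, map_nsmul] at h2
  exact h2

end Pool.Agent.K4H34.ST
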