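import Pool.Agent.K4H34.ST.Spec

/-!
# Piece Q: the quadratic character of `ℚ(√(1 - 4s))`
-/

set_option autoImplicit false

namespace Pool.Agent.K4H34.ST

open NumberField NumberField.ComplexEmbedding Polynomial Pool.Agent.R389 Pool.Agent.K4H74.ST
  Pool.Agent.K4H77.SL

theorem q : StQ := by
  intro s hs M _ _ η hη
  classical
  set y : M := (η : M) with hy
  have hyq : y * y - y + (s : M) = 0 := by
    have := congrArg (algebraMap (𝓞 M) M) hη
    simpa using this
  have hroot : ∀ σ : M ≃ₐ[ℚ] M, σ y = y ∨ σ y = 1 - y := by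
    intro σ
    have h1 := congrArg σ hyq
    simp only [map_add, map_sub, map_mul, map_natCast, map_zero] at h1
    have h2 : (σ y - y) * (σ y - (1 - y)) = 0 := by linear_combination h1 - hyq
    rcases mul_eq_zero.1 h2 with h | h
    · exact Or.inl (sub_eq_zero.1 h)
    · exact Or.inr (sub_eq_zero.1 h)
  have hne : y ≠ 1 - y := by
    intro h
    have h1 : (4 * (s : M) - 1) = 0 := by
      linear_combination 4 * hyq - (2 * y - 1) * h
    have h2 : ((4 * s - 1 : ℤ) : M) = 0 := by
      push_cast
      exact h1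
    have h3 : (4 * (s : ℤ) - 1) = 0 := by exact_mod_cast h2
    omega
  have hgi : ∀ σ : M ≃ₐ[ℚ] M, gi σ η = η ↔ σ y = y := by
    intro σ
    constructor
    · intro h
      have := congrArg (fun x : 𝓞 M => (x : M)) h
      exact this
    · intro h
      apply RingOfIntegers.ext
      exact h
  have hgi2 : ∀ σ : M ≃ₐ[ℚ] M, σ y ≠ y → gi σ η = 1 - η := by
    intro σ h
    apply RingOfIntegers.ext
    have h1 := (hroot σ).resolve_left h
    rw [gi_coe]
    simpa using h1
  set e : (M ≃ₐ[ℚ] M) → ℂˣ := fun σ => if σ y = y then 1 else -1 with he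
  have hmul : ∀ σ τ : M ≃ₐ[ℚ] M, e (σ * τ) = e σ * e τ := by
    intro σ τ
    have h1 : (σ * τ) y = σ (τ y) := rfl
    rw [he]
    simp only
    rw [h1]
    rcases hroot τ with h | h
    · rw [h, if_pos rfl, mul_one]
    · rw [h, map_sub, map_one]
      rw [if_neg (fun h2 => hne h2.symm : ¬ (1 - y = y))]
      rcases hroot σ with h2 | h2
      · rw [h2, if_pos rfl, if_neg (fun h2 => hne h2.symm : ¬ (1 - y = y)), one_mul]
      · rw [h2, if_pos (by ring), if_neg (fun h2 => hne h2.symm : ¬ (1 - y = y))]
        simp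
  have hone : e 1 = 1 := by
    rw [he]
    simp
  have hneg1 : (-1 : ℂˣ) ≠ 1 := by
    intro h
    have := congrArg Units.val h
    norm_num at this
  have hiff : ∀ σ : M ≃ₐ[ℚ] M, e σ = 1 ↔ σ y = y := by
    intro σ
    rw [he]
    simp only
    constructor
    · intro h
      by_contra h1
      rw [if_neg h1] at h
      exact hneg1 h
    · intro h
      rw [if_pos h]
  refine ⟨{ toFun := e, map_one' := hone, map_mul' := hmul }, ?_, ?_, ?_, ?_, ?_⟩
  · intro σ
    show e σ = 1 ∨ e σ = -1
    rw [he]
    simp only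
    split_ifs
    · exact Or.inl rfl
    · exact Or.inr rfl
  · intro σ
    show e σ = 1 ↔ _
    rw [hiff, hgi]
  · intro φ c hc
    show e c = -1
    rw [he]
    simp only
    rw [if_neg]
    intro h
    have h1 : (starRingEnd ℂ) (φ y) = φ (c y) := by
      have := RingHom.congr_fun hc y
      exact this
    rw [h] at h1
    obtain ⟨r, hr⟩ := Complex.conj_eq_iff_real.1 h1
    have h2 := congrArg φ hyq
    simp only [map_add, map_sub, map_mul, map_natCast, map_zero] at h2
    rw [hr] at h2
    have h3 : r * r - r + (s : ℝ) = 0 := by exact_mod_cast h2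
    have h4 : (1 : ℝ) ≤ s := by exact_mod_cast Nat.one_le_iff_ne_zero.2 hs
    nlinarith [sq_nonneg (2 * r - 1)]
  · intro σ Q hQ hsQ hσ
    show e σ = 1
    rw [hiff]
    by_contra h
    have h1 := hgi2 σ h
    have hprod : η * (1 - η) ∈ Q := by
      have : η * (1 - η) = (s : 𝓞 M) := by linear_combination -hη
      rw [this]
      exact hsQ
    have h1Q : (1 : 𝓞 M) ∉ Q := fun h => hQ.ne_top ((Ideal.eq_top_iff_one Q).2 h)
    rcases hQ.isPrime.mem_or_mem hprod with h2 | h2
    · have h3 := (hσ η).2 h2
      rw [h1] at h3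
      apply h1Q
      have := Q.add_mem h2 h3
      simpa using this
    · have h3 := (hσ (1 - η)).2 h2
      rw [map_sub, map_one, h1, sub_sub_cancel] at h3
      apply h1Q
      have := Q.add_mem h3 h2
      simpa using this
  · intro σ Q hQ hn hσ
    show e σ = 1
    rw [hiff]
    by_contra h
    have h1 := hgi2 σ h
    rw [h1] at hσ
    apply hn
    have h2 := Q.mul_mem_left (1 - η - η) hσ
    have h3 : (1 - η - η) * (1 - η - η) = -(((4 * s - 1 : ℕ) : 𝓞 M)) := by
      have hs1 : 1 ≤ 4 * s := by omega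
      rw [Nat.cast_sub hs1]
      push_cast
      linear_combination 4 * hη
    rw [h3] at h2
    exact (Submodule.neg_mem_iff Q).1 h2

end Pool.Agent.K4H34.ST
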