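import Mathlib
import Pool.Agent.K4H34.ST.Spec

/-!
# Piece S: unramified split extensions inside `N`
-/

set_option autoImplicit false
set_option linter.unusedSectionVars false

namespace Pool.Agent.K4H34.ST

open NumberField NumberField.ComplexEmbedding Polynomial Pool.Agent.R389 Pool.Agent.K4H74.ST
  Pool.Agent.K4H77.SL
open scoped Pointwise

theorem s : StS := by
  intro Mg _ A m hA N _ _ _ U hUc hF Γ _ _ κ ζ hζ W hWU hWκ hsplit hunr
  classical
  have hfin : FiniteDimensional ℚ N := inferInstance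
  let F := IntermediateField.fixedField U
  let e : U ≃* (N ≃ₐ[F] N) := IntermediateField.subgroupEquivAlgEquiv U
  have he : ∀ h : N ≃ₐ[F] N, (e.symm h : N ≃ₐ[ℚ] N) = h.restrictScalars ℚ := by
    intro h
    obtain ⟨u, rfl⟩ := e.surjective h
    rw [MulEquiv.symm_apply_apply]
    ext x
    rfl
  let ρ : (N ≃ₐ[F] N) →* Γ := κ.comp e.symm.toMonoidHom
  let W' : Subgroup (N ≃ₐ[F] N) := W.comap (U.subtype.comp e.symm.toMonoidHom)
  have hW'mem : ∀ h : N ≃ₐ[F] N, h ∈ W' ↔ (e.symm h : N ≃ₐ[ℚ] N) ∈ W := fun h => Iff.rfl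
  have hcycN : IsCyclic (N ≃ₐ[F] N) := isCyclic_of_surjective e e.surjective
  have hnorm : W'.Normal := by
    constructor
    intro a ha b
    have : IsMulCommutative (N ≃ₐ[F] N) := inferInstance
    have h1 : b * a * b⁻¹ = a := by
      have h2 : b * a = a * b := Std.Commutative.comm (op := (· * ·)) b a
      rw [h2, mul_assoc, mul_inv_cancel, mul_one]
    rw [h1]
    exact ha
  have hind : ind U (fun u => ζ (κ u)) = indChar ℚ F N (fun g => ζ (ρ g)) := by
    have h1 := ind_fixed U (fun u => ζ (κ u))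
    exact h1
  have hcharU : IsChar (fun g : N ≃ₐ[F] N => ζ (ρ g)) := IsChar.comp hζ ρ
  -- the field `E`
  let E : IntermediateField F N := IntermediateField.fixedField W'
  have hE : IsGalois F E := IsGalois.of_fixedField_normal_subgroup W'
  let π : (N ≃ₐ[F] N) →* (E ≃ₐ[F] E) := AlgEquiv.restrictNormalHom E
  have hπ : Function.Surjective π := AlgEquiv.restrictNormalHom_surjective N
  have hfinF : FiniteDimensional F N := Module.Finite.of_restrictScalars_finite ℚ F N
  have hker : ∀ g : N ≃ₐ[F] N, π g = 1 ↔ g ∈ W' := by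
    intro g
    constructor
    · intro h
      have h1 : g ∈ E.fixingSubgroup := by
        rw [IntermediateField.mem_fixingSubgroup_iff]
        intro x hx
        have h2 := res_apply (L := E) g ⟨x, hx⟩
        change algebraMap E N (π g ⟨x, hx⟩) = _ at h2
        rw [h] at h2
        exact h2.symm
      rw [IntermediateField.fixingSubgroup_fixedField] at h1
      exact h1
    · intro h
      ext x
      have h2 := res_apply (L := E) g x
      change algebraMap E N (π g x) = _ at h2
      change ((π g x : E) : N) = (x : N)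
      exact h2.trans (x.2 ⟨g, h⟩)
  have hle : π.ker ≤ ρ.ker := by
    intro g hg
    have h1 := (hker g).mp hg
    rw [MonoidHom.mem_ker]
    exact hWκ (e.symm g) h1
  let ρ' : (E ≃ₐ[F] E) →* Γ := π.liftOfSurjective hπ ⟨ρ, hle⟩
  have hρ' : ∀ g, ρ' (π g) = ρ g := fun g => MonoidHom.liftOfRightInverse_comp_apply _ _ _ ⟨ρ, hle⟩ g
  have hUmem : ∀ h : N ≃ₐ[F] N, (e.symm h : N ≃ₐ[ℚ] N) ∈ U := fun h => (e.symm h).2
  have hgi : ∀ (h : N ≃ₐ[F] N) (x : 𝓞 N), gi (e.symm h : N ≃ₐ[ℚ] N) x = gi h x := by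
    intro h x
    apply RingOfIntegers.ext
    rw [he]
    rfl
  have hdec : ∀ (h : N ≃ₐ[F] N) (Q : Ideal (𝓞 N)), h ∈ decomp F Q →
      (e.symm h : N ≃ₐ[ℚ] N) ∈ decomp ℚ Q := by
    intro h Q hh x
    rw [hgi]
    exact hh x
  -- the triviality of the decomposition groups
  have hone : ∀ (P : Ideal (𝓞 E)), P.IsMaximal → ∀ g ∈ decomp F P,
      ((m : 𝓞 E) ∈ P ∨ g ∈ inertia F P) → g = 1 := by
    intro P hP g hg hcase
    obtain ⟨h, Q, hhg, hQ, hQP, hhQ⟩ := lift_decomp (N := N) hP hg
    have hmain : (e.symm h : N ≃ₐ[ℚ] N) ∈ W → g = 1 := by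
      intro hsp
      rw [← hhg]
      exact (hker h).mpr hsp
    rcases hcase with hm | hi
    · apply hmain
      refine hsplit _ (hUmem h) Q hQ (hdec h Q hhQ) ?_
      have h1 : algebraMap (𝓞 E) (𝓞 N) (m : 𝓞 E) ∈ Q := by
        rw [← Ideal.mem_comap, hQP]
        exact hm
      rwa [map_natCast] at h1
    · apply hmain
      refine hunr _ (hUmem h) Q hQ (hdec h Q hhQ) ?_
      intro x hx
      have hxE : (x : N) ∈ E := by
        rintro ⟨r, hr⟩
        have h1 := hx _ ((hW'mem r).mp hr)
        rw [hgi] at h1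
        have h2 := congrArg (algebraMap (𝓞 N) N) h1
        exact h2
      have hyi : IsIntegral ℤ (⟨(x : N), hxE⟩ : E) := by
        have h4 : Function.Injective (algebraMap E N) := (algebraMap E N).injective
        rw [← isIntegral_algebraMap_iff (R := ℤ) h4]
        exact RingOfIntegers.isIntegral_coe x
      let y : 𝓞 E := ⟨⟨(x : N), hxE⟩, hyi⟩
      have h2 := hi y
      have h3 : algebraMap (𝓞 E) (𝓞 N) (gi g y - y) ∈ Q := by
        rw [← Ideal.mem_comap, hQP]
        exact h2
      have h5 : gi (e.symm h : N ≃ₐ[ℚ] N) x - x = algebraMap (𝓞 E) (𝓞 N) (gi g y - y) := by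
        rw [map_sub, hgi]
        have h6 : x = algebraMap (𝓞 E) (𝓞 N) y := by
          apply RingOfIntegers.ext
          rfl
        have h7 : gi h x = algebraMap (𝓞 E) (𝓞 N) (gi g y) := by
          apply RingOfIntegers.ext
          change h (x : N) = algebraMap E N (g ((y : 𝓞 E) : E))
          rw [← hhg, res_apply]
          rfl
        rw [h7, ← h6]
      rw [h5]
      exact h3
  have hcycE : IsCyclic (E ≃ₐ[F] E) := isCyclic_of_surjective π hπ
  have hval : A.val F E (fun g => ζ (ρ' g)) = 1 := by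
    refine hA F E hF hcycE ?_ ?_ _ (IsChar.comp hζ ρ')
    · intro P hP g hg
      exact hone P hP g (inertia_sub P hg) (Or.inr hg)
    · intro P hP hm g hg
      exact hone P hP g hg (Or.inl hm)
  have hval2 : A.val F N (fun g => ζ (ρ g)) = 1 := by
    rw [← hval, ← A.val_infl F E N _ (IsChar.comp hζ ρ')]
    congr 1
    funext g
    rw [← hρ']
  have hval3 : A.val ℚ N (indChar ℚ F N (fun g => ζ (ρ g))) = 1 := by
    rw [A.val_ind ℚ F N _ hcharU]
    exact hval2
  have hfinal : A.val ℚ N (ind U (fun u => ζ (κ u))) = 1 := by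
    rw [hind]
    exact hval3
  have hHyper : Hyper U := by
    obtain ⟨c, hc⟩ := hUc.exists_generator
    obtain ⟨p, hp1, hp⟩ := Nat.exists_infinite_primes (Nat.card U + 1)
    refine ⟨p, hp, c, ?_, fun u => hc _, fun u => ⟨0, hc _⟩⟩
    apply Nat.Coprime.symm
    rw [Nat.Prime.coprime_iff_not_dvd hp]
    intro h
    have h1 := Nat.le_of_dvd Nat.card_pos (h.trans (orderOf_dvd_natCard c))
    omega
  have hch : IsChar (ind U (fun u => ζ (κ u))) :=
    IsChar.ind_hyper hHyper (IsChar.comp hζ κ)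
  rw [mem_TT_char A hch, Subgroup.mem_bot]
  exact hfinal

end Pool.Agent.K4H34.ST
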