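import Mathlib
import Pool.Agent.K4H34.ST.Main4
import Pool.Agent.K4H34.ST.G1
import Pool.Agent.K4H34.ST.Odd
import Pool.Agent.K4H34.ST.Q
import Pool.Agent.K4H34.ST.S
import Pool.Agent.K4H36.TR.Spec
import Pool.Agent.K4H74.SC.Inst

/-!
# Stark's conjecture and Hilbert class fields: assembly
-/

set_option autoImplicit false
set_option linter.unusedSectionVars false

namespace Pool.Agent.K4H34.ST

open NumberField NumberField.ComplexEmbedding Polynomial Pool.Agent.R389 Pool.Agent.K4H74.ST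
  Pool.Agent.K4H77.SL Pool.Agent.H302R2 Pool.Agent.H302R3
open scoped Pointwise

variable {Mg : Type} [CommGroup Mg] {A : ArtinInvariant Mg}

/-- the main theorem over `ℚ` -/
theorem main_rat (hG2 : StG2) (hCo : StC) {m : ℕ} (hm : m ≠ 0) (hR : TrivOne A)
    (hO : TrivOdd A) (hTS : TrivSplit A m) (L : Type) [Field L] [NumberField L] [IsGalois ℚ L]
    {χ : (L ≃ₐ[ℚ] L) → ℂ} (hχ : IsChar χ) : IsOfFinOrder (A.val ℚ L χ) := by
  obtain ⟨m₀, hm₀, hram⟩ := exists_ram ℚ L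
  obtain ⟨r, hr⟩ : ∃ r : ℕ, r = m * m₀ := ⟨_, rfl⟩
  have hs : r ≠ 0 := hr ▸ mul_ne_zero hm hm₀
  obtain ⟨L₀, i1, i2, i3, hL₀, hloc⟩ := Pool.Agent.K4H36.TR.stA L r hs
  obtain ⟨t₀, ht₀, hramt⟩ := exists_ram ℚ L₀
  have h4s : 4 * r - 1 ≠ 0 := by omega
  obtain ⟨t, htd⟩ : ∃ t : ℕ, t = r * (t₀ * (4 * r - 1)) := ⟨_, rfl⟩
  have ht : t ≠ 0 := htd ▸ mul_ne_zero hs (mul_ne_zero ht₀ h4s)
  obtain ⟨N₁, j1, j2, j3, j4, hN₁, hB⟩ := Pool.Agent.K4H36.TR.stR2 L₀ hL₀ t ht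
  obtain ⟨M, k1, k2, k3, k4, k5, η, hη⟩ := hCo L N₁ r
  obtain ⟨ε, -, hεη, hεc, hεs, hεi⟩ := q r hs M η hη
  obtain ⟨N, l1, l2, l3, l4, l5, l6, -, hcc, hC⟩ := exists_both ℚ M ht
  have h0 : l3 = DivisionRing.toRatAlgebra := Subsingleton.elim _ _
  subst h0
  have hfin : FiniteDimensional ℚ N := inferInstance
  have hχc : ∀ g x, χ (x * g * x⁻¹) = χ g := (IsChar.heil hχ).conj
  have hst : r ∣ t := htd ▸ dvd_mul_right _ _
  have hA : LocA L L₀ N₁ M r := by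
    rintro σ ⟨Q, hQ, hsQ, hσ⟩ h1
    rw [rq_eq_one]
    let _ : Algebra L₀ M := ((algebraMap N₁ M).comp (algebraMap L₀ N₁)).toAlgebra
    refine hloc M σ Q hQ hsQ hσ fun x => ?_
    change σ (algebraMap N₁ M (algebraMap L₀ N₁ x)) = algebraMap N₁ M (algebraMap L₀ N₁ x)
    rw [← rq_apply, ← rq_apply, h1]
    rfl
  have hcore := fun g : N ≃ₐ[ℚ] N => core hG2 s (A := A) (m := m) (s := r) (t := t) hR hTS
    (hr ▸ dvd_mul_right _ _) hst hA hB hC
    (by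
      intro P hP
      rw [hr, Nat.cast_mul]
      exact P.mul_mem_left _ (hram P hP))
    (by
      intro P hP
      have h1 : (t : 𝓞 L₀) = (r : 𝓞 L₀) * (((4 * r - 1 : ℕ) : 𝓞 L₀) * (t₀ : 𝓞 L₀)) := by
        rw [htd, Nat.cast_mul, Nat.cast_mul]
        ring
      rw [h1]
      exact P.mul_mem_left _ (P.mul_mem_left _ (hramt P hP)))
    hN₁ hcc ε η hεη
    (by
      rintro σ ⟨Q, hQ, hsQ, hσ⟩
      exact hεs σ Q hQ hsQ hσ)
    (by
      intro σ Q hQ htQ hσ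
      refine hεi σ Q hQ ?_ hσ
      intro h4
      apply htQ
      have h1 : (t : 𝓞 M) = (r : 𝓞 M) * ((t₀ : 𝓞 M) * ((4 * r - 1 : ℕ) : 𝓞 M)) := by
        rw [htd, Nat.cast_mul, Nat.cast_mul]
      rw [h1]
      exact Q.mul_mem_left _ (Q.mul_mem_left _ h4))
    hχ g
  let Th : (N₁ ≃ₐ[ℚ] N₁) → ℂ := theta r χ L₀ N₁ M
  -- the totally odd part
  have hodd : (fun g : N ≃ₐ[ℚ] N => ((ε (rq M N g) : ℂˣ) : ℂ) * Th (rq N₁ M (rq M N g)))
      ∈ sat (TT A (K := ℚ) (L := N) ⊥) := by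
    let _ : Algebra N₁ N := ((algebraMap M N).comp (algebraMap N₁ M)).toAlgebra
    have hres : ∀ g : N ≃ₐ[ℚ] N, AlgEquiv.restrictNormalHom N₁ g = rq N₁ M (rq M N g) := by
      intro g
      ext x
      apply (algebraMap N₁ N).injective
      have h1 := rq_apply (E := N₁) (M := N) g x
      rw [h1]
      change g (algebraMap M N (algebraMap N₁ M x))
        = algebraMap M N (algebraMap N₁ M (rq N₁ M (rq M N g) x))
      rw [rq_apply, rq_apply]
    have h1 := odd hO N N₁ hN₁ (ε.comp (rq M N)) (by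
      intro c hc
      obtain ⟨φ, hφ⟩ := CC_res (L := M) hc
      exact hεc φ _ hφ) Th (theta_mem g1 hG2 hχ hst hA hB)
    have h2 : (fun g : N ≃ₐ[ℚ] N => ((ε (rq M N g) : ℂˣ) : ℂ) * Th (rq N₁ M (rq M N g)))
        = (fun g => (((ε.comp (rq M N)) g : ℂˣ) : ℂ) * Th (AlgEquiv.restrictNormalHom N₁ g)) := by
      funext g
      rw [hres]
      rfl
    rw [h2]
    exact h1
  -- the difference
  have hdif : (fun g : N ≃ₐ[ℚ] N => χ (rq L M (rq M N g)) - ((ε (rq M N g) : ℂˣ) : ℂ) *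
      Th (rq N₁ M (rq M N g))) ∈ sat (TT A (K := ℚ) (L := N) ⊥) := by
    apply g1 (N ≃ₐ[ℚ] N) _ _ _ hcore
    intro g x
    simp only [map_mul, map_inv, hχc]
    rw [theta_class hχc hst hA hB, mul_comm (ε (rq M N x)), mul_inv_cancel_right]
  have hsum : (fun g : N ≃ₐ[ℚ] N => χ (rq L M (rq M N g))) ∈ sat (TT A (K := ℚ) (L := N) ⊥) := by
    have h1 := add_mem hdif hodd
    have h2 : ((fun g : N ≃ₐ[ℚ] N => χ (rq L M (rq M N g)) - ((ε (rq M N g) : ℂˣ) : ℂ) *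
      Th (rq N₁ M (rq M N g))) + fun g : N ≃ₐ[ℚ] N => ((ε (rq M N g) : ℂˣ) : ℂ) *
      Th (rq N₁ M (rq M N g))) = fun g : N ≃ₐ[ℚ] N => χ (rq L M (rq M N g)) := by
      funext g
      simp only [Pi.add_apply]
      ring
    rwa [h2] at h1
  obtain ⟨n, hn, v, hv, h6⟩ := hsum
  rw [Subgroup.mem_bot] at hv
  subst hv
  let _ : Algebra L N := ((algebraMap M N).comp (algebraMap L M)).toAlgebra
  have htow : IsScalarTower ℚ L N := inferInstance
  have hres : ∀ g : N ≃ₐ[ℚ] N, AlgEquiv.restrictNormalHom L g = rq L M (rq M N g) := by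
    intro g
    ext x
    apply (algebraMap L N).injective
    have h1 := rq_apply (E := L) (M := N) g x
    rw [h1]
    change g (algebraMap M N (algebraMap L M x))
      = algebraMap M N (algebraMap L M (rq L M (rq M N g) x))
    rw [rq_apply, rq_apply]
  have h7 : (fun g : N ≃ₐ[ℚ] N => χ (rq L M (rq M N g)))
      = fun g => χ (AlgEquiv.restrictNormalHom L g) := by
    funext g
    rw [hres]
  have h8 : IsChar (fun g : N ≃ₐ[ℚ] N => χ (AlgEquiv.restrictNormalHom L g)) :=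
    Pool.Agent.K4H77.SL.IsChar.comp hχ _
  have h9 := Val.nsmul A (Val.of_char A h8) n
  rw [h7] at h6
  have h10 := h9.unique A h6
  rw [A.val_infl ℚ L N χ hχ] at h10
  exact isOfFinOrder_iff_pow_eq_one.mpr ⟨n, hn, h10⟩

end Pool.Agent.K4H34.ST
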