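import Mathlib
import Pool.Agent.K4H34.ST.Main5

/-!
# Stark's conjecture and Hilbert class fields: arbitrary base fields
-/

set_option autoImplicit false
set_option linter.unusedSectionVars false

namespace Pool.Agent.K4H34.ST

open NumberField NumberField.ComplexEmbedding Polynomial Pool.Agent.R389 Pool.Agent.K4H74.ST
  Pool.Agent.K4H77.SL

/-- every number field is contained in a Galois extension of `ℚ` -/
lemma exists_gal (L : Type) [Field L] [NumberField L] :
    ∃ (N : Type) (_ : Field N) (_ : NumberField N) (_ : Algebra L N), IsGalois ℚ N := by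
  let Ω := AlgebraicClosure L
  have h1 : Algebra.IsAlgebraic ℚ Ω := Algebra.IsAlgebraic.trans ℚ L Ω
  have h2 : IsAlgClosure ℚ Ω := ⟨inferInstance, inferInstance⟩
  have h3 : Normal ℚ Ω := IsAlgClosure.normal ℚ Ω
  let N := IntermediateField.normalClosure ℚ L Ω
  have hN1 : Normal ℚ N := normalClosure.normal ℚ L Ω
  have hN2 : FiniteDimensional ℚ N := normalClosure.is_finiteDimensional ℚ L Ω
  have hN3 : NumberField N := { to_charZero := inferInstance, to_finiteDimensional := hN2 }
  let _ : Algebra L N := inferInstanceAs (Algebra L (IntermediateField.normalClosure ℚ L Ω))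
  have h5 : IsGalois ℚ N := ⟨⟩
  exact ⟨N, inferInstance, hN3, inferInstance, h5⟩

variable {Mg : Type} [CommGroup Mg] {A : ArtinInvariant Mg}

/-- the main theorem -/
theorem main_gen (hG2 : StG2) (hCo : StC) {m : ℕ} (hm : m ≠ 0) (hR : TrivOne A)
    (hO : TrivOdd A) (hTS : TrivSplit A m) (K L : Type) [Field K] [NumberField K] [Field L]
    [NumberField L] [Algebra K L] [IsGalois K L] {χ : (L ≃ₐ[K] L) → ℂ} (hχ : IsChar χ) :
    IsOfFinOrder (A.val K L χ) := by
  obtain ⟨N, i1, i2, i3, i4⟩ := exists_gal L
  let _ : Algebra K N := ((algebraMap L N).comp (algebraMap K L)).toAlgebra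
  have htow : IsScalarTower K L N := IsScalarTower.of_algebraMap_eq fun x => rfl
  have htow2 : IsScalarTower ℚ K N := inferInstance
  have hgal : IsGalois K N := IsGalois.tower_top_of_isGalois ℚ K N
  have h8 : IsChar (fun g : N ≃ₐ[K] N => χ (AlgEquiv.restrictNormalHom L g)) :=
    Pool.Agent.K4H77.SL.IsChar.comp hχ _
  rw [← A.val_infl K L N χ hχ, ← A.val_ind ℚ K N _ h8]
  exact main_rat hG2 hCo hm hR hO hTS N (Pool.Agent.K4H74.SC.isChar_indChar h8)

end Pool.Agent.K4H34.ST
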