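import Mathlib
import Pool.Agent.K4H34.ST.Main6
import Pool.Agent.K4H34.ST.G2
import Pool.Agent.K4H34.ST.C

/-!
# Inductive invariants of Artin characters up to torsion: only Hilbert class fields of totally
complex fields matter
-/

set_option autoImplicit false
set_option linter.unusedSectionVars false

namespace Pool.Agent.K4H34.ST

open NumberField Pool.Agent.K4H74.ST Pool.Agent.K4H77.SL

/-- **The main theorem.** An inductive invariant of Artin characters which is trivial on the
trivial characters, on the totally odd linear characters of totally real fields and on the
characters of the cyclic extensions of totally complex fields which are unramified at all finite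
primes and in which the primes above `m` split completely has values of finite order on the
characters of every Galois extension of number fields. -/
theorem main {Mg : Type} [CommGroup Mg] {A : ArtinInvariant Mg} {m : ℕ} (hm : m ≠ 0)
    (hR : TrivOne A) (hO : TrivOdd A) (hTS : TrivSplit A m) (K L : Type) [Field K] [NumberField K]
    [Field L] [NumberField L] [Algebra K L] [IsGalois K L] {χ : (L ≃ₐ[K] L) → ℂ}
    (hχ : IsChar χ) : IsOfFinOrder (A.val K L χ) :=
  main_gen g2 c hm hR hO hTS K L hχ

end Pool.Agent.K4H34.ST
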