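import Mathlib
import Pool.Agent.K4H77.SL.Key

/-! Piece A, local part: Krasner's argument (by helper47). -/

set_option autoImplicit false

namespace Pool.Agent.K4H34.ST

open NumberField Polynomial Pool.Agent.K4H77.SL

/-- the polynomial `P + ∏ (X - 2Ti) - X ^ n` -/
noncomputable def gP (P : ℤ[X]) (T : ℕ) : ℤ[X] :=
  P + ∏ i ∈ Finset.range P.natDegree, (X - C ((2 * T * i : ℕ) : ℤ)) - X ^ P.natDegree

lemma gP_monic {P : ℤ[X]} (hP : P.Monic) (T : ℕ) : (gP P T).Monic := by
  have hQm : (∏ i ∈ Finset.range P.natDegree, (X - C ((2 * T * i : ℕ) : ℤ))).Monic :=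
    monic_prod_of_monic _ _ fun i _ => monic_X_sub_C _
  have hQd : (∏ i ∈ Finset.range P.natDegree, (X - C ((2 * T * i : ℕ) : ℤ))).degree
      = (P.natDegree : WithBot ℕ) := by
    rw [degree_prod, Finset.sum_congr rfl fun i _ => degree_X_sub_C _]
    simp
  have hPd : P.degree = P.natDegree := degree_eq_natDegree hP.ne_zero
  have hH : (P - X ^ P.natDegree).degree < (P.natDegree : WithBot ℕ) := by
    have h := degree_sub_lt_left (p := P) (q := X ^ P.natDegree) (by rw [hPd, degree_X_pow])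
      hP.ne_zero (by rw [hP.leadingCoeff, leadingCoeff_X_pow])
    rwa [hPd] at h
  have e : gP P T = ∏ i ∈ Finset.range P.natDegree, (X - C ((2 * T * i : ℕ) : ℤ))
      + (P - X ^ P.natDegree) := by
    unfold gP
    ring
  rw [e]
  exact hQm.add_of_left (by rw [hQd]; exact hH)

lemma dvd_prod_sub {R : Type} [CommRing R] (t x : R) (c : ℕ → R) (n : ℕ) :
    t ∣ ∏ i ∈ Finset.range n, (x - t * c i) - x ^ n := by
  induction n with
  | zero => simp
  | succ n ih =>
    obtain ⟨d, hd⟩ := ih
    refine ⟨d * (x - t * c n) - x ^ n * c n, ?_⟩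
    rw [Finset.prod_range_succ]
    have : ∏ i ∈ Finset.range n, (x - t * c i) = t * d + x ^ n := by rw [← hd]; ring
    rw [this]
    ring

/-- an integer `k` such that `D ∉ P ^ k` for all proper ideals `P` -/
lemma exists_not_mem_pow {L : Type} [Field L] [NumberField L] {D : 𝓞 L} (hD : D ≠ 0) :
    ∃ k : ℕ, ∀ P : Ideal (𝓞 L), P ≠ ⊤ → D ∉ P ^ k := by
  refine ⟨Ideal.absNorm (Ideal.span {D}), fun P hP hmem => ?_⟩
  set B := Ideal.absNorm (Ideal.span {D}) with hB
  have h0 : B ≠ 0 := by
    rw [hB, Ne, Ideal.absNorm_eq_zero_iff, Ideal.span_singleton_eq_bot]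
    exact hD
  have h1 : Ideal.span {D} ≤ P ^ B := by
    rw [Ideal.span_singleton_le_iff_mem]
    exact hmem
  have h2 : Ideal.absNorm (P ^ B) ∣ B := Ideal.absNorm_dvd_absNorm_of_le h1
  rw [map_pow] at h2
  have h3 : Ideal.absNorm P ≠ 1 := by
    rw [Ne, Ideal.absNorm_eq_one_iff]
    exact hP
  have h4 : Ideal.absNorm P ≠ 0 := by
    intro h
    rw [h, zero_pow h0] at h2
    exact h0 (zero_dvd_iff.1 h2)
  have h5 : 2 ≤ Ideal.absNorm P := by omega
  have h6 := Nat.le_of_dvd (Nat.pos_of_ne_zero h0) h2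
  have h7 : 2 ^ B ≤ Ideal.absNorm P ^ B := Nat.pow_le_pow_left h5 B
  have h8 : B < 2 ^ B := Nat.lt_two_pow_self
  omega

open Classical in
/-- the product of the differences of the conjugates -/
noncomputable def DD {L : Type} [Field L] [NumberField L] (β : 𝓞 L) : 𝓞 L :=
  ∏ τ : L ≃ₐ[ℚ] L, if gi τ β = β then 1 else gi τ β - β

lemma DD_ne {L : Type} [Field L] [NumberField L] (β : 𝓞 L) : DD β ≠ 0 := by
  classical
  unfold DD
  rw [Finset.prod_ne_zero_iff]
  intro τ _
  split_ifs with h
  · exact one_ne_zero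
  · exact sub_ne_zero.2 h

lemma dvd_DD {L : Type} [Field L] [NumberField L] (β : 𝓞 L) {τ : L ≃ₐ[ℚ] L} (h : gi τ β ≠ β) :
    gi τ β - β ∣ DD β := by
  classical
  unfold DD
  have := Finset.dvd_prod_of_mem (fun τ : L ≃ₐ[ℚ] L => if gi τ β = β then 1 else gi τ β - β)
    (Finset.mem_univ τ)
  simp only [h, if_false] at this
  exact this

/-- Krasner's argument at the prime `Q`. -/
theorem krasner {L : Type} [Field L] [NumberField L] [IsGalois ℚ L] {s k T : ℕ} (hT : s ^ k ∣ T)
    (β : 𝓞 L) (hk : ∀ P : Ideal (𝓞 L), P ≠ ⊤ → DD β ^ (minpoly ℤ β).natDegree ∉ P ^ k)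
    {M : Type} [Field M] [NumberField M] [Algebra L M] {σ : M ≃ₐ[ℚ] M} {Q : Ideal (𝓞 M)}
    (hQ : Q.IsMaximal) (hsQ : (s : 𝓞 M) ∈ Q) (hσQ : σ ∈ decomp ℚ Q) (S : Multiset (𝓞 M))
    (hS : (gP (minpoly ℤ β) T).map (Int.castRingHom (𝓞 M)) = (S.map fun a => X - C a).prod)
    (hfix : ∀ a ∈ S, gi σ a = a) :
    gi σ (algebraMap (𝓞 L) (𝓞 M) β) = algebraMap (𝓞 L) (𝓞 M) β := by
  classical
  set φ : 𝓞 L →+* 𝓞 M := algebraMap (𝓞 L) (𝓞 M) with hφ
  by_contra hne
  set P := minpoly ℤ β with hP
  have hPm : P.Monic := minpoly.monic (Algebra.IsIntegral.isIntegral β)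
  set n := P.natDegree with hn
  let v := (hos Q hQ).intValuation
  have hv : ∀ x : 𝓞 M, v (gi σ x) = v x := fun x => val_inv hQ hσQ x
  -- the restriction of σ
  let τ : L ≃ₐ[ℚ] L := σ.restrictNormal L
  have hτ : gi σ (φ β) = φ (gi τ β) := by
    apply RingOfIntegers.ext
    rw [gi_coe]
    have h1 := AlgEquiv.restrictNormal_commutes σ L (β : L)
    change σ (algebraMap L M (β : L)) = algebraMap L M ((gi τ β : 𝓞 L) : L)
    rw [gi_coe, ← h1]
  have hτβ : gi τ β ≠ β := by
    intro h
    apply hne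
    rw [hτ, h]
  obtain ⟨c, hc⟩ := dvd_DD β hτβ
  have hvD : v (φ (DD β)) ≤ v (gi σ (φ β) - φ β) := by
    rw [hc, map_mul, map_mul, map_sub φ, ← hτ]
    exact mul_le_of_le_one_right' (IsDedekindDomain.HeightOneSpectrum.intValuation_le_one _ _)
  have hva : ∀ a ∈ S, v (gi σ (φ β) - φ β) ≤ v (φ β - a) := by
    intro a ha
    have h1 : gi σ (φ β) - φ β = gi σ (φ β - a) - (φ β - a) := by
      rw [map_sub (gi σ), hfix a ha]
      ring
    rw [h1]
    refine (Valuation.map_sub _ _ _).trans (max_le ?_ le_rfl)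
    exact (hv _).le
  have hcard : S.card = n := by
    have h1 : ((gP P T).map (Int.castRingHom (𝓞 M))).natDegree = n := by
      rw [(gP_monic hPm T).natDegree_map]
      have h2 : (gP P T).degree = (n : WithBot ℕ) := by
        have hQd : (∏ i ∈ Finset.range P.natDegree, (X - C ((2 * T * i : ℕ) : ℤ))).degree
            = (P.natDegree : WithBot ℕ) := by
          rw [degree_prod, Finset.sum_congr rfl fun i _ => degree_X_sub_C _]
          simp
        have hPd : P.degree = P.natDegree := degree_eq_natDegree hPm.ne_zero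
        have hH : (P - X ^ P.natDegree).degree < (P.natDegree : WithBot ℕ) := by
          have h := degree_sub_lt_left (p := P) (q := X ^ P.natDegree)
            (by rw [hPd, degree_X_pow]) hPm.ne_zero (by rw [hPm.leadingCoeff, leadingCoeff_X_pow])
          rwa [hPd] at h
        have e : gP P T = ∏ i ∈ Finset.range P.natDegree, (X - C ((2 * T * i : ℕ) : ℤ))
            + (P - X ^ P.natDegree) := by
          unfold gP
          ring
        rw [e, degree_add_eq_left_of_degree_lt (by rw [hQd]; exact hH), hQd]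
      exact natDegree_eq_of_degree_eq_some h2
    rw [hS, natDegree_multiset_prod_X_sub_C_eq_card] at h1
    exact h1
  have hev : ((gP P T).map (Int.castRingHom (𝓞 M))).eval (φ β) = (S.map fun a => φ β - a).prod := by
    rw [hS, eval_multiset_prod, Multiset.map_map]
    congr 1
    refine Multiset.map_congr rfl fun a _ => ?_
    simp
  have hdiv : (s : 𝓞 M) ^ k ∣ ((gP P T).map (Int.castRingHom (𝓞 M))).eval (φ β) := by
    obtain ⟨t, ht⟩ := hT
    have h0 : (P.map (Int.castRingHom (𝓞 M))).eval (φ β) = 0 := by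
      have h1 : aeval (φ β) P = 0 := by
        have h2 : aeval β P = 0 := minpoly.aeval ℤ β
        rw [hφ, aeval_algebraMap_apply, h2, map_zero]
      rw [eval_map]
      exact h1
    have h2 : ((gP P T).map (Int.castRingHom (𝓞 M))).eval (φ β)
        = ∏ i ∈ Finset.range n, (φ β - (T : 𝓞 M) * (2 * i)) - φ β ^ n := by
      unfold gP
      rw [Polynomial.map_sub, Polynomial.map_add, eval_sub, eval_add, h0, zero_add,
        Polynomial.map_prod, eval_prod, Polynomial.map_pow, Polynomial.map_X, eval_pow, eval_X]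
      congr 1
      refine Finset.prod_congr rfl fun i _ => ?_
      simp
      ring
    rw [h2]
    refine Dvd.dvd.trans ?_ (dvd_prod_sub (T : 𝓞 M) (φ β) (fun i => 2 * (i : 𝓞 M)) n)
    rw [ht]
    push_cast
    exact Dvd.intro _ rfl
  have e5 : v (φ (DD β ^ n)) ≤ v (φ ((s : 𝓞 L) ^ k)) := by
    have h1 : v (φ (DD β ^ n)) ≤ v ((S.map fun a => φ β - a).prod) := by
      rw [map_pow, map_pow, ← hcard, map_multiset_prod, Multiset.map_map]
      clear hev hcard hS
      induction S using Multiset.induction with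
      | empty => simp
      | cons a S ih =>
        rw [Multiset.card_cons, Multiset.map_cons, Multiset.prod_cons, pow_succ']
        refine mul_le_mul' ?_ ?_
        · exact hvD.trans (hva a (Multiset.mem_cons_self a S))
        · exact ih (fun b hb => hfix b (Multiset.mem_cons_of_mem hb))
            (fun b hb => hva b (Multiset.mem_cons_of_mem hb))
    refine h1.trans ?_
    rw [← hev]
    obtain ⟨d, hd⟩ := hdiv
    rw [hd, map_mul, map_pow φ, map_natCast]
    exact mul_le_of_le_one_right' (IsDedekindDomain.HeightOneSpectrum.intValuation_le_one _ _)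
  -- compare at the prime below
  set w : Ideal (𝓞 L) := Q.comap φ with hw
  have hwm : w.IsMaximal := Ideal.isMaximal_comap_of_isIntegral_of_isMaximal (R := 𝓞 L) Q
  let u := hos w hwm
  have hlo : (hos Q hQ).asIdeal.LiesOver u.asIdeal := ⟨by
    change w = Ideal.under (𝓞 L) Q
    rw [Ideal.under_def]⟩
  have h1 := IsDedekindDomain.HeightOneSpectrum.intValuation_liesOver u (hos Q hQ) (DD β ^ n)
  have h2 := IsDedekindDomain.HeightOneSpectrum.intValuation_liesOver u (hos Q hQ) ((s : 𝓞 L) ^ k)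
  change _ = v (φ _) at h1
  change _ = v (φ _) at h2
  rw [← h1, ← h2] at e5
  have h3 : u.asIdeal.ramificationIdx' (hos Q hQ).asIdeal ≠ 0 :=
    Ideal.IsDedekindDomain.ramificationIdx'_ne_zero_of_liesOver _ u.ne_bot
  have h4 := (pow_le_pow_iff_left₀ zero_le zero_le h3).mp e5
  have hsw : (s : 𝓞 L) ∈ w := by
    rw [hw, Ideal.mem_comap, map_natCast]
    exact hsQ
  have h5 : u.intValuation ((s : 𝓞 L) ^ k) ≤ WithZero.exp (-(k : ℤ)) :=
    (u.intValuation_le_pow_iff_mem _ _).mpr (Ideal.pow_mem_pow hsw k)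
  exact hk w hwm.ne_top ((u.intValuation_le_pow_iff_mem _ _).mp (h4.trans h5))

end Pool.Agent.K4H34.ST
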