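import Mathlib

/-! Piece R0: polynomials with only real roots (by helper47). -/

set_option autoImplicit false

open Polynomial Finset

namespace Pool.Agent.K4H34.ST

lemma r0_bound {n : ℕ} (hn : 1 ≤ n) {H : ℝ[X]} (hH : H.degree < n) :
    ∃ B : ℝ, 0 ≤ B ∧ ∀ R x : ℝ, 1 ≤ R → |x| ≤ R → |H.eval x| ≤ B * R ^ (n - 1) := by
  refine ⟨∑ i ∈ range n, |H.coeff i|, Finset.sum_nonneg fun _ _ => abs_nonneg _, ?_⟩
  intro R x hR hx
  have hd : H.natDegree < n := by
    rcases eq_or_ne H 0 with rfl | h0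
    · simp only [natDegree_zero]; omega
    · exact (natDegree_lt_iff_degree_lt h0).2 hH
  rw [eval_eq_sum_range' hd, Finset.sum_mul]
  refine (Finset.abs_sum_le_sum_abs _ _).trans (Finset.sum_le_sum fun i hi => ?_)
  rw [abs_mul, abs_pow]
  refine mul_le_mul_of_nonneg_left ?_ (abs_nonneg _)
  have hi' : i ≤ n - 1 := by
    have := Finset.mem_range.1 hi
    omega
  exact (pow_le_pow_left₀ (abs_nonneg _) hx i).trans (pow_le_pow_right₀ hR hi')

lemma r0_prod {n j : ℕ} (hj : j ≤ n) {T : ℝ} (hT : 0 ≤ T) :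
    T ^ n ≤ (-1) ^ (n - j) * ∏ i ∈ range n, (T * (2 * j - 1) - 2 * T * i) := by
  have h1 := Finset.prod_range_mul_prod_Ico (fun i : ℕ => T * (2 * j - 1) - 2 * T * i) hj
  rw [← h1]
  have h2 : T ^ j ≤ ∏ i ∈ range j, (T * (2 * j - 1) - 2 * T * i) := by
    have : T ^ j = ∏ _i ∈ range j, T := by simp
    rw [this]
    refine Finset.prod_le_prod (fun _ _ => hT) fun i hi => ?_
    have h3 : (i : ℝ) + 1 ≤ j := by exact_mod_cast Finset.mem_range.1 hi
    nlinarith
  have h3 : T ^ (n - j) ≤ (-1) ^ (n - j) * ∏ i ∈ Ico j n, (T * (2 * j - 1) - 2 * T * i) := by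
    have e1 : (-1 : ℝ) ^ (n - j) = ∏ _i ∈ Ico j n, (-1 : ℝ) := by simp
    have e2 : T ^ (n - j) = ∏ _i ∈ Ico j n, T := by simp
    rw [e1, e2, ← Finset.prod_mul_distrib]
    refine Finset.prod_le_prod (fun _ _ => hT) fun i hi => ?_
    have h3 : (j : ℝ) ≤ i := by exact_mod_cast (Finset.mem_Ico.1 hi).1
    nlinarith
  have h4 : T ^ n = T ^ j * T ^ (n - j) := by rw [← pow_add]; congr 1; omega
  rw [h4, ← mul_assoc, mul_comm ((-1 : ℝ) ^ (n - j)), mul_assoc]
  exact mul_le_mul h2 h3 (by positivity) (le_trans (by positivity) h2)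

/-- the polynomials of `StR0` have only real roots -/
theorem r0' : ∀ P : ℝ[X], P.Monic → ∃ T₀ : ℕ, ∀ T : ℕ, T₀ ≤ T → ∀ z : ℂ,
    ((P + ∏ i ∈ Finset.range P.natDegree, (X - C ((2 * T * i : ℕ) : ℝ))
      - X ^ P.natDegree).map (algebraMap ℝ ℂ)).eval z = 0 → z.im = 0 := by
  intro P hP
  obtain ⟨n, hn⟩ : ∃ n, n = P.natDegree := ⟨_, rfl⟩
  rw [← hn]
  rcases Nat.eq_zero_or_pos n with h0 | hpos
  · refine ⟨0, fun T _ z hz => ?_⟩
    exfalso
    have hP1 : P = 1 := by
      rw [hn] at h0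
      exact (Polynomial.Monic.natDegree_eq_zero hP).1 h0
    rw [h0, hP1] at hz
    simp at hz
  have hPd : P.degree = n := by rw [hn]; exact degree_eq_natDegree hP.ne_zero
  have hH : (P - X ^ n).degree < (n : WithBot ℕ) := by
    rw [← hPd]
    refine degree_sub_lt_left ?_ hP.ne_zero ?_
    · rw [hPd, degree_X_pow]
    · rw [hP.leadingCoeff, leadingCoeff_X_pow]
  obtain ⟨B, hB0, hB⟩ := r0_bound hpos hH
  obtain ⟨T₀, hT₀⟩ := exists_nat_gt (B * (2 * n : ℝ) ^ (n - 1) + 1)
  refine ⟨T₀, fun T hT z hz => ?_⟩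
  have hTr : B * (2 * n : ℝ) ^ (n - 1) + 1 < T := lt_of_lt_of_le hT₀ (by exact_mod_cast hT)
  have hT1 : (1 : ℝ) ≤ T := by
    have : 0 ≤ B * (2 * n : ℝ) ^ (n - 1) := by positivity
    linarith
  set f : ℝ[X] := P + ∏ i ∈ Finset.range n, (X - C ((2 * T * i : ℕ) : ℝ)) - X ^ n with hf
  have hn1 : (1 : ℝ) ≤ n := by exact_mod_cast hpos
  have hev : ∀ x : ℝ, f.eval x = (P - X ^ n).eval x + ∏ i ∈ range n, (x - 2 * T * i) := by
    intro x
    rw [hf, eval_sub, eval_add, eval_prod]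
    have : ∏ i ∈ range n, (X - C ((2 * T * i : ℕ) : ℝ)).eval x = ∏ i ∈ range n, (x - 2 * T * i) := by
      refine Finset.prod_congr rfl fun i _ => ?_
      simp
    rw [this, eval_sub]
    ring
  have hsign : ∀ j : ℕ, j ≤ n → 0 < (-1 : ℝ) ^ (n - j) * f.eval ((T : ℝ) * (2 * j - 1)) := by
    intro j hj
    rw [hev, mul_add]
    have h1 := r0_prod hj (zero_le_one.trans hT1)
    have hjn : (j : ℝ) ≤ n := by exact_mod_cast hj
    have hj0 : (0 : ℝ) ≤ j := Nat.cast_nonneg _
    have h2 := hB (2 * n * T) (T * (2 * j - 1)) (by nlinarith) (by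
      rw [abs_le]
      constructor <;> nlinarith)
    have h3 : |(-1 : ℝ) ^ (n - j) * (P - X ^ n).eval ((T : ℝ) * (2 * j - 1))| ≤
        B * (2 * n * T) ^ (n - 1) := by
      rw [abs_mul, abs_pow, abs_neg, abs_one, one_pow, one_mul]
      exact h2
    have h4 : B * (2 * n * T : ℝ) ^ (n - 1) < (T : ℝ) ^ n := by
      have e1 : (T : ℝ) ^ n = (T : ℝ) ^ (n - 1) * T := by
        rw [← pow_succ]
        congr 1
        omega
      have hTp : (0 : ℝ) < (T : ℝ) ^ (n - 1) := by positivity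
      rw [e1, mul_pow]
      nlinarith
    have h5 := (abs_le.1 h3).1
    linarith
  have hroot : ∀ j : ℕ, j < n → ∃ y : ℝ, (T : ℝ) * (2 * j - 1) < y ∧ y < T * (2 * (j + 1 : ℕ) - 1) ∧
      f.eval y = 0 := by
    intro j hj
    have hle : (T : ℝ) * (2 * j - 1) ≤ T * (2 * (j + 1 : ℕ) - 1) := by
      push_cast
      nlinarith
    have h1 := hsign j hj.le
    have h2 := hsign (j + 1) hj
    have e1 : (-1 : ℝ) ^ (n - j) = -(-1) ^ (n - (j + 1)) := by
      have : n - j = (n - (j + 1)) + 1 := by omega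
      rw [this, pow_succ]
      ring
    have hc : ContinuousOn (fun x => (-1) ^ (n - (j + 1)) * f.eval x)
        (Set.Icc ((T : ℝ) * (2 * j - 1)) (T * (2 * (j + 1 : ℕ) - 1))) :=
      (continuous_const.mul f.continuous).continuousOn
    have h3 := intermediate_value_Ioo hle hc
    have h4 : (0 : ℝ) ∈ Set.Ioo ((-1) ^ (n - (j + 1)) * f.eval ((T : ℝ) * (2 * j - 1)))
        ((-1) ^ (n - (j + 1)) * f.eval ((T : ℝ) * (2 * (j + 1 : ℕ) - 1))) := by
      refine ⟨?_, h2⟩
      rw [e1] at h1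
      linarith
    obtain ⟨y, ⟨hy1, hy2⟩, hy3⟩ := h3 h4
    refine ⟨y, hy1, hy2, ?_⟩
    have : ((-1 : ℝ)) ^ (n - (j + 1)) ≠ 0 := pow_ne_zero _ (by norm_num)
    exact (mul_eq_zero.1 hy3).resolve_left this
  choose! y hy1 hy2 hy3 using hroot
  have hinj : ∀ i j : ℕ, i < n → j < n → i < j → y i < y j := by
    intro i j hi hj hij
    have h1 := hy2 i hi
    have h2 := hy1 j hj
    have h3 : ((i + 1 : ℕ) : ℝ) ≤ j := by exact_mod_cast hij
    have h4 : (T : ℝ) * (2 * (i + 1 : ℕ) - 1) ≤ T * (2 * j - 1) := by nlinarith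
    linarith
  by_contra him
  -- the monic polynomial of degree n would have n + 1 roots
  have hfm : f.Monic ∧ f.natDegree = n := by
    have hQm : (∏ i ∈ Finset.range n, (X - C ((2 * T * i : ℕ) : ℝ))).Monic :=
      monic_prod_of_monic _ _ fun i _ => monic_X_sub_C _
    have hQd : (∏ i ∈ Finset.range n, (X - C ((2 * T * i : ℕ) : ℝ))).degree = (n : WithBot ℕ) := by
      rw [degree_prod, Finset.sum_congr rfl fun i _ => degree_X_sub_C _]
      simp
    have e : f = ∏ i ∈ Finset.range n, (X - C ((2 * T * i : ℕ) : ℝ)) + (P - X ^ n) := by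
      rw [hf]; ring
    have hm : f.Monic := by
      rw [e]
      exact hQm.add_of_left (by rw [hQd]; exact hH)
    refine ⟨hm, ?_⟩
    have : f.degree = (n : WithBot ℕ) := by
      rw [e, degree_add_eq_left_of_degree_lt (by rw [hQd]; exact hH), hQd]
    exact natDegree_eq_of_degree_eq_some this
  set F := f.map (algebraMap ℝ ℂ) with hF
  have hFm : F.Monic := hfm.1.map _
  have hFd : F.natDegree = n := by rw [hF, hfm.1.natDegree_map, hfm.2]
  let Z : Finset ℂ := insert z ((range n).image fun j => ((y j : ℝ) : ℂ))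
  have hZ : Z.val ⊆ F.roots := by
    intro w hw
    have hw' : w ∈ Z := hw
    rw [mem_roots hFm.ne_zero, IsRoot.def]
    rcases Finset.mem_insert.1 hw' with rfl | h
    · exact hz
    · obtain ⟨j, hj, rfl⟩ := Finset.mem_image.1 h
      have h1 := hy3 j (Finset.mem_range.1 hj)
      rw [hF, eval_map]
      have : ((y j : ℝ) : ℂ) = algebraMap ℝ ℂ (y j) := rfl
      rw [this, eval₂_at_apply, h1, map_zero]
  have hcard : Z.card = n + 1 := by
    rw [Finset.card_insert_of_notMem, Finset.card_image_of_injOn, Finset.card_range]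
    · intro i hi j hj hij
      have hi' := Finset.mem_range.1 (Finset.mem_coe.1 hi)
      have hj' := Finset.mem_range.1 (Finset.mem_coe.1 hj)
      have h1 : y i = y j := Complex.ofReal_injective hij
      rcases lt_trichotomy i j with h | h | h
      · exact absurd h1 (hinj i j hi' hj' h).ne
      · exact h
      · exact absurd h1 (hinj j i hj' hi' h).ne'
    · intro h
      obtain ⟨j, -, hj⟩ := Finset.mem_image.1 h
      apply him
      rw [← hj, Complex.ofReal_im]
  have := Polynomial.card_le_degree_of_subset_roots hZ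
  omega

end Pool.Agent.K4H34.ST
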