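import Mathlib
import Pool.Agent.K4H34.ST.Spec
import Pool.Agent.K4H34.ST.R0
import Pool.Agent.K4H34.ST.A0

/-! Piece A: a totally real field with the same completions at the primes dividing `s`
(by helper47). -/

set_option autoImplicit false

namespace Pool.Agent.K4H34.ST

open NumberField NumberField.ComplexEmbedding Polynomial Pool.Agent.R389 Pool.Agent.K4H74.ST
  Pool.Agent.K4H77.SL

theorem r0 : StR0 := r0'

theorem a (h1 : StR1) : StA := by
  classical
  intro L _ _ _ s hs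
  let b := RingOfIntegers.basis L
  have hPm : ∀ i, (minpoly ℤ (b i)).Monic := fun i =>
    minpoly.monic (Algebra.IsIntegral.isIntegral (b i))
  -- the exponents
  have hk : ∀ i, ∃ k : ℕ, ∀ P : Ideal (𝓞 L), P ≠ ⊤ →
      DD (b i) ^ (minpoly ℤ (b i)).natDegree ∉ P ^ k := fun i =>
    exists_not_mem_pow (pow_ne_zero _ (DD_ne (b i)))
  choose k hk using hk
  -- the numbers T
  have hT : ∀ i, ∃ T₀ : ℕ, ∀ T : ℕ, T₀ ≤ T → ∀ z : ℂ,
      ((gP (minpoly ℤ (b i)) T).map (Int.castRingHom ℂ)).eval z = 0 → z.im = 0 := by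
    intro i
    obtain ⟨T₀, h⟩ := r0' ((minpoly ℤ (b i)).map (Int.castRingHom ℝ)) ((hPm i).map _)
    refine ⟨T₀, fun T hT z hz => h T hT z ?_⟩
    have hd : ((minpoly ℤ (b i)).map (Int.castRingHom ℝ)).natDegree = (minpoly ℤ (b i)).natDegree :=
      (hPm i).natDegree_map _
    rw [hd]
    have e : (gP (minpoly ℤ (b i)) T).map (Int.castRingHom ℂ)
        = ((minpoly ℤ (b i)).map (Int.castRingHom ℝ)
          + ∏ j ∈ Finset.range (minpoly ℤ (b i)).natDegree, (X - C ((2 * T * j : ℕ) : ℝ))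
          - X ^ (minpoly ℤ (b i)).natDegree).map (algebraMap ℝ ℂ) := by
      unfold gP
      simp only [Polynomial.map_sub, Polynomial.map_add, Polynomial.map_prod, Polynomial.map_pow,
        Polynomial.map_X, Polynomial.map_C, Polynomial.map_map]
      have e1 : (algebraMap ℝ ℂ).comp (Int.castRingHom ℝ) = Int.castRingHom ℂ :=
        RingHom.ext_int _ _
      rw [e1]
      simp
    rw [← e]
    exact hz
  choose T₀ hT using hT
  let T : Module.Free.ChooseBasisIndex ℤ (𝓞 L) → ℕ := fun i => s ^ k i * (T₀ i + 1)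
  have hTT : ∀ i, T₀ i ≤ T i := by
    intro i
    have : 1 ≤ s ^ k i := Nat.one_le_pow _ _ (Nat.pos_of_ne_zero hs)
    change T₀ i ≤ s ^ k i * (T₀ i + 1)
    nlinarith
  let A : Set (𝓞 ℚ)[X] := Set.range fun i =>
    (gP (minpoly ℤ (b i)) (T i)).map (Int.castRingHom (𝓞 ℚ))
  have hA : A.Finite := Set.finite_range _
  have hAm : ∀ f ∈ A, f.Monic := by
    rintro f ⟨i, rfl⟩
    exact (gP_monic (hPm i) _).map _
  have hAr : ∀ f ∈ A, ∀ (φ : ℚ →+* ℂ) (z : ℂ),
      (f.map (φ.comp (algebraMap (𝓞 ℚ) ℚ))).eval z = 0 → z.im = 0 := by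
    rintro f ⟨i, rfl⟩ φ z hz
    apply hT i (T i) (hTT i) z
    rw [Polynomial.map_map] at hz
    have e1 : (φ.comp (algebraMap (𝓞 ℚ) ℚ)).comp (Int.castRingHom (𝓞 ℚ)) = Int.castRingHom ℂ :=
      RingHom.ext_int _ _
    rw [e1] at hz
    exact hz
  have hG : @IsGalois ℚ _ ℚ _ DivisionRing.toRatAlgebra := by
    have e : (DivisionRing.toRatAlgebra : Algebra ℚ ℚ) = Algebra.id ℚ := Subsingleton.elim _ _
    rw [e]
    infer_instance
  obtain ⟨N, fN, nN, aN, gN, tN, hN⟩ := @h1 ℚ _ _ hG inferInstance A hA hAm hAr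
  refine ⟨N, fN, nN, gN, tN, ?_⟩
  intro M _ _ _ _ σ Q hQ hsQ hσQ hfix x
  have key : ∀ i, gi σ (algebraMap (𝓞 L) (𝓞 M) (b i)) = algebraMap (𝓞 L) (𝓞 M) (b i) := by
    intro i
    obtain ⟨S, hS⟩ := hN _ ⟨i, rfl⟩
    refine krasner (s := s) (k := k i) (T := T i) (Dvd.intro _ rfl) (b i) (hk i) hQ hsQ hσQ
      (S.map (algebraMap (𝓞 N) (𝓞 M))) ?_ ?_
    · rw [Polynomial.map_map] at hS
      have h2 := congrArg (Polynomial.map (algebraMap (𝓞 N) (𝓞 M))) hS
      rw [Polynomial.map_map] at h2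
      have e1 : (algebraMap (𝓞 N) (𝓞 M)).comp ((algebraMap (𝓞 ℚ) (𝓞 N)).comp
          (Int.castRingHom (𝓞 ℚ))) = Int.castRingHom (𝓞 M) := RingHom.ext_int _ _
      rw [e1] at h2
      rw [h2, Polynomial.map_multiset_prod, Multiset.map_map, Multiset.map_map]
      congr 1
      refine Multiset.map_congr rfl fun a _ => ?_
      simp
    · intro a ha
      obtain ⟨c, -, rfl⟩ := Multiset.mem_map.1 ha
      apply RingOfIntegers.ext
      rw [gi_coe]
      exact hfix (c : N)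
  let f1 : L →ₐ[ℚ] M := (σ : M →ₐ[ℚ] M).comp (Algebra.algHom ℚ L M)
  let f2 : L →ₐ[ℚ] M := Algebra.algHom ℚ L M
  have h12 : f1.toLinearMap = f2.toLinearMap := by
    refine (integralBasis L).ext fun i => ?_
    rw [integralBasis_apply]
    have h := congrArg (fun y : 𝓞 M => (y : M)) (key i)
    simp only [gi_coe] at h
    exact h
  exact congrArg (fun g : L →ₗ[ℚ] M => g x) h12

end Pool.Agent.K4H34.ST
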